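import Pool.Agent.Helper914.Corona.Fibre

set_option autoImplicit false
open Filter Topology Complex MeasureTheory AddCircle
open scoped Real ComplexConjugate ENNReal BoundedContinuousFunction

namespace Pool.Agent.Helper914.Corona
open Pool.Agent.Helper914.Corona.Toep

/-- closed conditions pass to the fibre -/
lemma transfer {g : BY} {F : C(KK, ℂ)} (h : g - sig F ∈ c0) {C : Set ℂ} (hC : IsClosed C)
    (hg : ∀ᶠ y in L0, g y ∈ C) (κ : KK) : F κ ∈ C := by
  by_contra hκ
  obtain ⟨δ, hδ, hball⟩ := Metric.isOpen_iff.1 hC.isOpen_compl (F κ) hκ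
  have h1 : F ⁻¹' (Metric.ball (F κ) (δ / 2)) ∈ 𝓝 κ :=
    F.continuous.continuousAt.preimage_mem_nhds (Metric.ball_mem_nhds _ (by linarith))
  have h2 := (Metric.tendsto_nhds.1 (mem_c0.1 h)) (δ / 2) (by linarith)
  obtain ⟨y, ⟨hy1, hy2⟩, hy3⟩ := cluster κ h1 (h2.and hg)
  apply hball _ hy2
  rw [Metric.mem_ball]
  have h3 : dist (F (qT y)) (F κ) < δ / 2 := hy3
  have h4 : dist (g y) (F (qT y)) < δ / 2 := by
    rw [dist_eq_norm]
    have : (g - sig F) y = g y - F (qT y) := rfl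
    rw [← this]
    simpa using hy1
  linarith [dist_triangle (g y) (F (qT y)) (F κ)]

lemma norm_fibre_le {g : BY} {F : C(KK, ℂ)} (h : g - sig F ∈ c0) : ‖F‖ ≤ ‖g‖ := by
  rw [ContinuousMap.norm_le _ (norm_nonneg _)]
  intro κ
  have := transfer h (C := Metric.closedBall 0 ‖g‖) Metric.isClosed_closedBall
    (Eventually.of_forall fun y => by
      rw [mem_closedBall_zero_iff]; exact g.norm_coe_le_norm y) κ
  rwa [mem_closedBall_zero_iff] at this

lemma fibre_unique {g : BY} {F F' : C(KK, ℂ)} (h : g - sig F ∈ c0) (h' : g - sig F' ∈ c0) :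
    F = F' := by
  have h1 : (0 : BY) - sig (F - F') ∈ c0 := by
    have := c0_sub h h'
    rw [map_sub]
    have e : g - sig F - (g - sig F') = 0 - (sig F - sig F') := by ring
    rwa [e] at this
  have := norm_fibre_le h1
  rw [norm_zero] at this
  exact sub_eq_zero.1 (norm_eq_zero.1 (le_antisymm this (norm_nonneg _)))

/-- `f` has boundary values continuous off the missing point, with fibre function `F` -/
def Rep (f : Li) (F : C(KK, ℂ)) : Prop := ∃ g : BY, f = io g ∧ g - sig F ∈ c0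

lemma Rep.unique {f : Li} {F F' : C(KK, ℂ)} (h : Rep f F) (h' : Rep f F') : F = F' := by
  obtain ⟨g, hg, hgF⟩ := h
  obtain ⟨g', hg', hgF'⟩ := h'
  have : g = g' := io_injective (hg.symm.trans hg')
  subst this
  exact fibre_unique hgF hgF'

lemma Rep.norm_le {f : Li} {F : C(KK, ℂ)} (h : Rep f F) : ‖F‖ ≤ ‖f‖ := by
  obtain ⟨g, hg, hgF⟩ := h
  rw [hg, norm_io]; exact norm_fibre_le hgF

lemma Rep.add {f f' : Li} {F F' : C(KK, ℂ)} (h : Rep f F) (h' : Rep f' F') :
    Rep (f + f') (F + F') := by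
  obtain ⟨g, rfl, hgF⟩ := h
  obtain ⟨g', rfl, hgF'⟩ := h'
  refine ⟨g + g', (map_add io g g').symm, ?_⟩
  have := c0_add hgF hgF'
  rw [map_add]
  have e : g + g' - (sig F + sig F') = g - sig F + (g' - sig F') := by ring
  rw [e]; exact this

lemma Rep.smul {f : Li} {F : C(KK, ℂ)} (c : ℂ) (h : Rep f F) : Rep (c • f) (c • F) := by
  obtain ⟨g, rfl, hgF⟩ := h
  refine ⟨c • g, (map_smul io c g).symm, ?_⟩
  rw [map_smul, ← smul_sub]
  exact c0_smul c hgF

lemma Rep.neg {f : Li} {F : C(KK, ℂ)} (h : Rep f F) : Rep (-f) (-F) := by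
  rw [← neg_one_smul ℂ f, ← neg_one_smul ℂ F]
  exact h.smul (-1)

lemma Rep.sub {f f' : Li} {F F' : C(KK, ℂ)} (h : Rep f F) (h' : Rep f' F') :
    Rep (f - f') (F - F') := by
  rw [sub_eq_add_neg, sub_eq_add_neg]; exact h.add h'.neg

lemma Rep.mul {f f' : Li} {F F' : C(KK, ℂ)} (h : Rep f F) (h' : Rep f' F') :
    Rep (f * f') (F * F') := by
  obtain ⟨g, rfl, hgF⟩ := h
  obtain ⟨g', rfl, hgF'⟩ := h'
  refine ⟨g * g', (map_mul io g g').symm, ?_⟩
  rw [map_mul]
  have e : g * g' - sig F * sig F' = g * (g' - sig F') + sig F' * (g - sig F) := by ring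
  rw [e]
  exact c0_add (c0_mul _ hgF') (c0_mul _ hgF)

lemma Rep.const (c : ℂ) : Rep (algebraMap ℂ Li c) (algebraMap ℂ C(KK, ℂ) c) := by
  refine ⟨algebraMap ℂ BY c, (io.commutes c).symm, ?_⟩
  rw [sig.commutes, sub_self]; exact c0_zero

lemma Rep.one : Rep 1 1 := by
  have := Rep.const 1
  rwa [map_one, map_one] at this

lemma Rep.cj {f : Li} {F : C(KK, ℂ)} (h : Rep f F) : Rep (cj f) (star F) := by
  obtain ⟨g, rfl, hgF⟩ := h
  refine ⟨star g, cj_io g, ?_⟩
  rw [sig_star]
  have : star g - star (sig F) = star (g - sig F) := (star_sub _ _).symm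
  rw [this]; exact c0_star hgF

lemma Rep.jj (c : C(UnitAddCircle, ℂ)) : Rep (jj c) (algebraMap ℂ C(KK, ℂ) (c 0)) := by
  refine ⟨res c, jj_eq_io c, ?_⟩
  rw [sig.commutes]; exact res_sub_const c

/-- closure property of `Rep` -/
lemma Rep.of_seq {u : ℕ → Li} {U : ℕ → C(KK, ℂ)} (h : ∀ n, Rep (u n) (U n)) {f : Li}
    (hf : Tendsto u atTop (𝓝 f)) : ∃ F, Rep f F ∧ Tendsto U atTop (𝓝 F) := by
  choose g hg hgU using h
  have hu : CauchySeq u := hf.cauchySeq
  have h1 : ∀ m n, dist (g m) (g n) = dist (u m) (u n) := by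
    intro m n
    rw [dist_eq_norm, dist_eq_norm, hg m, hg n, ← map_sub, norm_io]
  have h2 : ∀ m n, dist (U m) (U n) ≤ dist (u m) (u n) := by
    intro m n
    rw [← h1, dist_eq_norm, dist_eq_norm]
    apply norm_fibre_le
    have := c0_sub (hgU m) (hgU n)
    rw [map_sub]
    have e : g m - g n - (sig (U m) - sig (U n)) = g m - sig (U m) - (g n - sig (U n)) := by ring
    rwa [e]
  have hgc : CauchySeq g := by
    rw [Metric.cauchySeq_iff] at hu ⊢
    intro ε hε
    obtain ⟨N, hN⟩ := hu ε hε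
    exact ⟨N, fun m hm n hn => by rw [h1]; exact hN m hm n hn⟩
  have hUc : CauchySeq U := by
    rw [Metric.cauchySeq_iff] at hu ⊢
    intro ε hε
    obtain ⟨N, hN⟩ := hu ε hε
    exact ⟨N, fun m hm n hn => (h2 m n).trans_lt (hN m hm n hn)⟩
  obtain ⟨G, hG⟩ := cauchySeq_tendsto_of_complete hgc
  obtain ⟨F, hF⟩ := cauchySeq_tendsto_of_complete hUc
  refine ⟨F, ⟨G, ?_, ?_⟩, hF⟩
  · have hio : Tendsto (fun n => io (g n)) atTop (𝓝 (io G)) := by
      rw [tendsto_iff_norm_sub_tendsto_zero]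
      have : (fun n => ‖io (g n) - io G‖) = fun n => ‖g n - G‖ := by
        ext n; rw [← map_sub, norm_io]
      rw [this]
      exact tendsto_iff_norm_sub_tendsto_zero.1 hG
    have : (fun n => io (g n)) = u := by ext1 n; exact (hg n).symm
    rw [this] at hio
    exact tendsto_nhds_unique hf hio
  · have hsig : Tendsto (fun n => sig (U n)) atTop (𝓝 (sig F)) := by
      rw [tendsto_iff_norm_sub_tendsto_zero] at hF ⊢
      apply squeeze_zero (fun _ => norm_nonneg _) _ hF
      intro n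
      rw [← map_sub]; exact norm_sig_le _
    exact isClosed_c0.mem_of_tendsto (hG.sub hsig) (Eventually.of_forall hgU)

/-- retraction of the plane onto the closed disc -/
noncomputable def rho (w : ℂ) : Metric.closedBall (0 : ℂ) 1 :=
  ⟨((max 1 ‖w‖)⁻¹ : ℝ) • w, by
    rw [mem_closedBall_zero_iff, norm_smul, Real.norm_eq_abs,
      abs_of_nonneg (by positivity)]
    rw [inv_mul_le_iff₀ (by positivity), mul_one]
    exact le_max_right _ _⟩

lemma continuous_rho : Continuous rho := by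
  unfold rho
  have h : Continuous fun w : ℂ => (max 1 ‖w‖)⁻¹ := by
    apply Continuous.inv₀ (by fun_prop)
    intro w
    positivity
  fun_prop

lemma rho_of_le {w : ℂ} (h : ‖w‖ ≤ 1) : rho w = ⟨w, by rwa [mem_closedBall_zero_iff]⟩ := by
  apply Subtype.ext
  simp only [rho]
  rw [max_eq_left h, inv_one, one_smul]

lemma rho_coe (w : Metric.closedBall (0 : ℂ) 1) : rho w = w :=
  rho_of_le (mem_closedBall_zero_iff.1 w.2)

/-- the slice `w ↦ F (0, w)` -/
noncomputable def slice (F : C(KK, ℂ)) (w : ℂ) : ℂ := F (0, rho w)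

lemma continuous_slice (F : C(KK, ℂ)) : Continuous (slice F) := by
  unfold slice
  exact F.continuous.comp (continuous_const.prodMk continuous_rho)

lemma slice_coe (F : C(KK, ℂ)) (w : Metric.closedBall (0 : ℂ) 1) : slice F w = F (0, w) := by
  rw [slice, rho_coe]

/-- the fibre algebra: functions on `[0,1] × disc` analytic on the bottom disc -/
noncomputable def TT : Subalgebra ℂ C(KK, ℂ) where
  carrier := {F | DifferentiableOn ℂ (slice F) (Metric.ball 0 1)}
  mul_mem' := by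
    intro a b ha hb
    exact (show DifferentiableOn ℂ (slice a) (Metric.ball 0 1) from ha).mul
      (show DifferentiableOn ℂ (slice b) (Metric.ball 0 1) from hb)
  add_mem' := by
    intro a b ha hb
    exact (show DifferentiableOn ℂ (slice a) (Metric.ball 0 1) from ha).add
      (show DifferentiableOn ℂ (slice b) (Metric.ball 0 1) from hb)
  algebraMap_mem' := fun c => by
    change DifferentiableOn ℂ (slice (algebraMap ℂ C(KK, ℂ) c)) (Metric.ball 0 1)
    have : slice (algebraMap ℂ C(KK, ℂ) c) = fun _ => c := by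
      ext w; rfl
    rw [this]
    exact differentiableOn_const c

lemma mem_TT {F : C(KK, ℂ)} : F ∈ TT ↔ DifferentiableOn ℂ (slice F) (Metric.ball 0 1) := Iff.rfl

lemma TT_of_seq {U : ℕ → C(KK, ℂ)} (hU : ∀ n, U n ∈ TT) {F : C(KK, ℂ)}
    (hF : Tendsto U atTop (𝓝 F)) : F ∈ TT := by
  rw [mem_TT]
  have h1 : TendstoUniformly (fun n => slice (U n)) (slice F) atTop := by
    rw [Metric.tendstoUniformly_iff]
    intro ε hε
    rw [Metric.tendsto_nhds] at hF
    filter_upwards [hF ε hε] with n hn w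
    rw [dist_comm]
    exact (ContinuousMap.dist_apply_le_dist _).trans_lt hn
  exact (h1.tendstoUniformlyOn.tendstoLocallyUniformlyOn).differentiableOn
    (Eventually.of_forall fun n => hU n) Metric.isOpen_ball

lemma isClosed_TT : IsClosed (TT : Set C(KK, ℂ)) := by
  apply IsSeqClosed.isClosed
  intro U F hU hF
  exact TT_of_seq hU hF

/-- functions vanishing on the bottom are in the algebra -/
lemma mem_TT_of_zero {F : C(KK, ℂ)} (h : ∀ w, F (0, w) = 0) : F ∈ TT := by
  rw [mem_TT]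
  have : slice F = fun _ => 0 := by ext w; exact h _
  rw [this]
  exact differentiableOn_const 0

/-- inverse-closedness of the fibre algebra -/
lemma inv_mem_TT {F G : C(KK, ℂ)} (hF : F ∈ TT) (h : F * G = 1) : G ∈ TT := by
  rw [mem_TT] at *
  have h1 : ∀ w, slice F w * slice G w = 1 := by
    intro w
    have := DFunLike.congr_fun h (0, rho w)
    exact this
  have h2 : slice G = fun w => (slice F w)⁻¹ := by
    ext w
    rw [eq_inv_of_mul_eq_one_right (h1 w)]
  rw [h2]
  apply hF.inv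
  intro w _ h3
  have := h1 w
  rw [h3, zero_mul] at this
  exact zero_ne_one this

/-- the algebra `X` of type A but not of type B -/
noncomputable def XX : Subalgebra ℂ Li where
  carrier := {f | f ∈ Hi ∧ ∃ F ∈ TT, Rep f F}
  mul_mem' := by
    rintro a b ⟨ha, A, hA, hA'⟩ ⟨hb, B, hB, hB'⟩
    exact ⟨mul_mem_Hi ha hb, A * B, TT.mul_mem hA hB, hA'.mul hB'⟩
  add_mem' := by
    rintro a b ⟨ha, A, hA, hA'⟩ ⟨hb, B, hB, hB'⟩
    exact ⟨Hi.add_mem ha hb, A + B, TT.add_mem hA hB, hA'.add hB'⟩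
  algebraMap_mem' := fun c => ⟨by
    rw [Algebra.algebraMap_eq_smul_one]; exact Hi.smul_mem _ one_mem_Hi,
    _, TT.algebraMap_mem c, Rep.const c⟩

lemma mem_XX {f : Li} : f ∈ XX ↔ f ∈ Hi ∧ ∃ F ∈ TT, Rep f F := Iff.rfl

lemma isClosed_XX : IsClosed (XX : Set Li) := by
  apply IsSeqClosed.isClosed
  intro u f hu hf
  have h1 : ∀ n, ∃ F ∈ TT, Rep (u n) F := fun n => (hu n).2
  choose U hUT hU using h1
  obtain ⟨F, hF, hlim⟩ := Rep.of_seq hU hf
  exact ⟨isClosed_Hi.mem_of_tendsto hf (Eventually.of_forall fun n => (hu n).1), F,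
    TT_of_seq hUT hlim, hF⟩

lemma jj_mem_XX {c : C(UnitAddCircle, ℂ)} (h : jj c ∈ Hi) : jj c ∈ XX :=
  ⟨h, _, TT.algebraMap_mem _, Rep.jj c⟩

lemma Li_zero_ne_one : (0 : Li) ≠ 1 := by
  intro h
  have h1 : io 0 = io 1 := by rw [map_zero, map_one]; exact h
  obtain ⟨y⟩ : Nonempty YY := (inferInstance : NeBot L0).nonempty
  have h2 := DFunLike.congr_fun (io_injective h1) y
  exact zero_ne_one (α := ℂ) h2

/-- inverses -/
lemma Rep.inv {f k : Li} {F : C(KK, ℂ)} (h : Rep f F) (hfk : f * k = 1) :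
    ∃ G, F * G = 1 ∧ Rep k G := by
  obtain ⟨g, rfl, hgF⟩ := h
  -- lower bound for `g`
  have hk0 : 0 < ‖k‖ := by
    rw [norm_pos_iff]
    rintro rfl
    rw [mul_zero] at hfk
    exact Li_zero_ne_one hfk
  set δ := ‖k‖⁻¹ with hδ
  have hδ0 : 0 < δ := inv_pos.2 hk0
  set C : Set ℂ := {z | δ ≤ ‖z‖} with hCdef
  have hC : IsClosed C := isClosed_le continuous_const continuous_norm
  have h1 : ∀ y, g y ∈ C := by
    intro y
    apply closed_ae hC g
    filter_upwards [coeFn_mul (io g) k, coeFn_one, ae_norm_le k] with t h1 h2 h3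
    rw [hfk, h2] at h1
    have h4 : 1 = ‖io g t‖ * ‖k t‖ := by rw [← norm_mul, ← h1, norm_one]
    change δ ≤ ‖io g t‖
    rw [hδ, inv_le_iff_one_le_mul₀ hk0]
    calc (1 : ℝ) = ‖io g t‖ * ‖k t‖ := h4
      _ ≤ ‖io g t‖ * ‖k‖ := by gcongr
  have h2 : ∀ κ, F κ ∈ C := fun κ => transfer hgF hC (Eventually.of_forall h1) κ
  have hg0 : ∀ y, g y ≠ 0 := by
    intro y h0
    have := h1 y
    rw [h0, hCdef] at this
    simp only [Set.mem_setOf_eq, norm_zero] at this
    linarith
  have hF0 : ∀ κ, F κ ≠ 0 := by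
    intro y h0
    have := h2 y
    rw [h0, hCdef] at this
    simp only [Set.mem_setOf_eq, norm_zero] at this
    linarith
  set G : C(KK, ℂ) := ⟨fun κ => (F κ)⁻¹, F.continuous.inv₀ hF0⟩ with hG
  set g' : BY := BoundedContinuousFunction.ofNormedAddCommGroup (fun y => (g y)⁻¹)
    (g.continuous.inv₀ hg0) ‖k‖ (fun y => by
      rw [norm_inv]
      have : δ ≤ ‖g y‖ := h1 y
      rw [hδ] at this
      exact inv_le_of_inv_le₀ hk0 this) with hg'
  have hgg : g * g' = 1 := by
    ext y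
    exact mul_inv_cancel₀ (hg0 y)
  have hFG : F * G = 1 := by
    ext κ
    exact mul_inv_cancel₀ (hF0 κ)
  refine ⟨G, hFG, g', ?_, ?_⟩
  · have h3 : io g * io g' = 1 := by rw [← map_mul, hgg, map_one]
    calc k = (io g * io g') * k := by rw [h3, one_mul]
      _ = io g' * (io g * k) := by ring
      _ = io g' := by rw [hfk, mul_one]
  · have e : g' - sig G = (-(g' * sig G)) * (g - sig F) := by
      have h3 : sig F * sig G = 1 := by rw [← map_mul, hFG, map_one]
      have h4 : (-(g' * sig G)) * (g - sig F) = g' * (sig F * sig G) - (g * g') * sig G := by ring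
      rw [h4, h3, hgg]; ring
    rw [e]
    exact c0_mul _ hgF

lemma inv_mem_XX {f k : Li} (hf : f ∈ XX) (hfk : f * k = 1) (hk : k ∈ Hi) : k ∈ XX := by
  obtain ⟨-, F, hF, hF'⟩ := hf
  obtain ⟨G, hG, hG'⟩ := hF'.inv hfk
  exact ⟨hk, G, inv_mem_TT hF hG, hG'⟩

lemma div_mem_XX {f I : Li} (hf : f ∈ XX) (hI : I ∈ XX) (hin : cj I * I = 1)
    (h : f * cj I ∈ Hi) : f * cj I ∈ XX := by
  obtain ⟨-, F, hF, hF'⟩ := hf
  obtain ⟨-, G, hG, hG'⟩ := hI
  obtain ⟨G', hGG, hG''⟩ := hG'.inv (by rw [mul_comm]; exact hin)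
  exact ⟨h, F * G', TT.mul_mem hF (inv_mem_TT hG hGG), hF'.mul hG''⟩

end Pool.Agent.Helper914.Corona
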