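import Mathlib

set_option autoImplicit false
open Filter Topology Complex
open scoped Real

namespace Pool.Agent.Helper914.Corona

/-- the closed disc without the point `1` -/
def D1 : Set ℂ := Metric.closedBall 0 1 \ {1}

noncomputable def Lf (z : ℂ) : ℂ := Complex.log (6 / (1 - z))
noncomputable def vf (z : ℂ) : ℂ := Complex.log (Lf z)

lemma re_lt_one {z : ℂ} (hz : z ∈ D1) : z.re < 1 := by
  obtain ⟨h1, h2⟩ := hz
  rw [mem_closedBall_zero_iff] at h1
  have h3 : z.re ≤ 1 := (Complex.re_le_norm z).trans h1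
  rcases h3.lt_or_eq with h | h
  · exact h
  · exfalso
    apply h2
    have h4 : ‖z‖ ^ 2 ≤ 1 := by nlinarith [norm_nonneg z]
    rw [← Complex.normSq_eq_norm_sq, Complex.normSq_apply, h] at h4
    have h5 : z.im = 0 := by nlinarith [mul_self_nonneg z.im]
    rw [Set.mem_singleton_iff]
    apply Complex.ext <;> simp [h, h5]

lemma one_sub_ne {z : ℂ} (hz : z ∈ D1) : 1 - z ≠ 0 := by
  intro h
  have := re_lt_one hz
  have h2 : z = 1 := by linear_combination -h
  rw [h2] at this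
  simp at this

lemma re_six_pos {z : ℂ} (hz : z ∈ D1) : 0 < (6 / (1 - z)).re := by
  rw [Complex.div_re]
  have h1 := re_lt_one hz
  have h2 : 0 < Complex.normSq (1 - z) := Complex.normSq_pos.2 (one_sub_ne hz)
  have h3 : 0 < (1 - z).re := by simp; linarith
  have : (6 : ℂ).im = 0 := rfl
  have h6 : (6 : ℂ).re = 6 := rfl
  rw [this, h6, zero_mul, zero_div, add_zero]
  positivity

lemma norm_six {z : ℂ} (hz : z ∈ D1) : 3 ≤ ‖6 / (1 - z)‖ := by
  rw [norm_div]
  have h1 : 0 < ‖1 - z‖ := norm_pos_iff.2 (one_sub_ne hz)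
  have h2 : ‖1 - z‖ ≤ 2 := by
    have := norm_sub_le (1 : ℂ) z
    have h3 := mem_closedBall_zero_iff.1 hz.1
    rw [norm_one] at this
    linarith
  rw [le_div_iff₀ h1]
  have : ‖(6 : ℂ)‖ = 6 := by simp
  rw [this]; linarith

lemma Lf_re {z : ℂ} : (Lf z).re = Real.log ‖6 / (1 - z)‖ := Complex.log_re _

lemma one_le_Lf_re {z : ℂ} (hz : z ∈ D1) : 1 ≤ (Lf z).re := by
  rw [Lf_re, Real.le_log_iff_exp_le (by linarith [norm_six hz])]
  have := Real.exp_one_lt_d9
  linarith [norm_six hz]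

lemma Lf_im {z : ℂ} (hz : z ∈ D1) : |(Lf z).im| ≤ π / 2 := by
  rw [Lf, Complex.log_im]
  exact (Complex.abs_arg_le_pi_div_two_iff).2 (re_six_pos hz).le

lemma six_slit {z : ℂ} (hz : z ∈ D1) : 6 / (1 - z) ∈ slitPlane := Or.inl (re_six_pos hz)

lemma Lf_slit {z : ℂ} (hz : z ∈ D1) : Lf z ∈ slitPlane := Or.inl (by linarith [one_le_Lf_re hz])

lemma ball_sub_D1 : Metric.ball (0 : ℂ) 1 ⊆ D1 := by
  intro z hz
  refine ⟨Metric.ball_subset_closedBall hz, ?_⟩
  rintro rfl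
  simp at hz

lemma continuousOn_Lf : ContinuousOn Lf D1 := by
  apply ContinuousOn.clog
  · apply ContinuousOn.div continuousOn_const (by fun_prop)
    intro z hz; exact one_sub_ne hz
  · intro z hz; exact six_slit hz

lemma continuousOn_vf : ContinuousOn vf D1 := by
  apply ContinuousOn.clog continuousOn_Lf
  intro z hz; exact Lf_slit hz

lemma differentiableOn_Lf : DifferentiableOn ℂ Lf (Metric.ball 0 1) := by
  apply DifferentiableOn.clog
  · apply DifferentiableOn.div (by fun_prop) (by fun_prop)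
    intro z hz; exact one_sub_ne (ball_sub_D1 hz)
  · intro z hz; exact six_slit (ball_sub_D1 hz)

lemma differentiableOn_vf : DifferentiableOn ℂ vf (Metric.ball 0 1) := by
  apply DifferentiableOn.clog differentiableOn_Lf
  intro z hz; exact Lf_slit (ball_sub_D1 hz)

lemma vf_re {z : ℂ} : (vf z).re = Real.log ‖Lf z‖ := Complex.log_re _

lemma one_le_norm_Lf {z : ℂ} (hz : z ∈ D1) : 1 ≤ ‖Lf z‖ :=
  (one_le_Lf_re hz).trans (Complex.re_le_norm _)

lemma vf_re_nonneg {z : ℂ} (hz : z ∈ D1) : 0 ≤ (vf z).re := by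
  rw [vf_re]; exact Real.log_nonneg (one_le_norm_Lf hz)

lemma vf_im {z : ℂ} (hz : z ∈ D1) : |(vf z).im| ≤ 3 * Real.exp (-(vf z).re) := by
  have hL := one_le_norm_Lf hz
  rw [vf_re, Real.exp_neg, Real.exp_log (by linarith)]
  have h1 : (vf z).im = arg (Lf z) := Complex.log_im _
  rw [h1]
  have h2 : |arg (Lf z)| ≤ π / 2 :=
    (Complex.abs_arg_le_pi_div_two_iff).2 (by linarith [one_le_Lf_re hz])
  have h3 := Real.mul_abs_le_abs_sin h2
  have h4 : Real.sin (arg (Lf z)) = (Lf z).im / ‖Lf z‖ := Complex.sin_arg _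
  rw [h4, abs_div, abs_of_pos (by linarith : 0 < ‖Lf z‖), le_div_iff₀ (by linarith)] at h3
  have h5 := Lf_im hz
  have hπ : 0 < π := Real.pi_pos
  have h6 : |arg (Lf z)| * ‖Lf z‖ ≤ 3 := by
    have h7 : 2 / π * |arg (Lf z)| * ‖Lf z‖ ≤ π / 2 := h3.trans h5
    have h8 : |arg (Lf z)| * ‖Lf z‖ ≤ π / 2 * (π / 2) := by
      have := mul_le_mul_of_nonneg_left h7 (by positivity : (0 : ℝ) ≤ π / 2)
      have e : π / 2 * (2 / π * |arg (Lf z)| * ‖Lf z‖) = |arg (Lf z)| * ‖Lf z‖ := by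
        field_simp
      linarith
    have := Real.pi_lt_d2
    nlinarith
  rw [← div_eq_mul_inv, le_div_iff₀ (by linarith)]
  exact h6

/-- the limit `z → 1` inside the closed disc -/
lemma tendsto_vf_re : Tendsto (fun z => (vf z).re) (𝓝[D1] 1) atTop := by
  have h1 : Tendsto (fun z : ℂ => ‖1 - z‖) (𝓝[D1] 1) (𝓝[>] 0) := by
    rw [tendsto_nhdsWithin_iff]
    constructor
    · have : Tendsto (fun z : ℂ => ‖1 - z‖) (𝓝 1) (𝓝 ‖(1 : ℂ) - 1‖) := by
        apply Continuous.tendsto; fun_prop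
      rw [sub_self, norm_zero] at this
      exact this.mono_left nhdsWithin_le_nhds
    · filter_upwards [self_mem_nhdsWithin] with z hz
      exact norm_pos_iff.2 (one_sub_ne hz)
  have h2 : Tendsto (fun z : ℂ => ‖6 / (1 - z)‖) (𝓝[D1] 1) atTop := by
    have : (fun z : ℂ => ‖6 / (1 - z)‖) = fun z => 6 * ‖1 - z‖⁻¹ := by
      ext z; rw [norm_div]; simp [div_eq_mul_inv]
    rw [this]
    exact (tendsto_inv_nhdsGT_zero.comp h1).const_mul_atTop (by norm_num)
  have h3 : Tendsto (fun z : ℂ => (Lf z).re) (𝓝[D1] 1) atTop := by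
    have : (fun z : ℂ => (Lf z).re) = fun z => Real.log ‖6 / (1 - z)‖ := by
      ext z; exact Lf_re
    rw [this]
    exact Real.tendsto_log_atTop.comp h2
  have h4 : Tendsto (fun z : ℂ => ‖Lf z‖) (𝓝[D1] 1) atTop :=
    tendsto_atTop_mono (fun z => Complex.re_le_norm _) h3
  have : (fun z => (vf z).re) = fun z => Real.log ‖Lf z‖ := by
    ext z; exact vf_re
  rw [this]
  exact Real.tendsto_log_atTop.comp h4

lemma pow_sub_bound (k : ℕ) {z : ℂ} (hz : z ∈ D1) :
    ‖vf z ^ k - ((vf z).re : ℂ) ^ k‖ ≤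
      3 * Real.exp (-(vf z).re) * (k * ((vf z).re + 3) ^ (k - 1)) := by
  set v := vf z
  have hx : 0 ≤ v.re := vf_re_nonneg hz
  have hy : |v.im| ≤ 3 * Real.exp (-v.re) := vf_im hz
  have hy3 : |v.im| ≤ 3 := hy.trans (by
    have : Real.exp (-v.re) ≤ 1 := Real.exp_le_one_iff.2 (by linarith)
    linarith)
  have hv : ‖v‖ ≤ v.re + 3 := by
    refine (Complex.norm_le_abs_re_add_abs_im v).trans ?_
    rw [abs_of_nonneg hx]; linarith
  have hr : ‖(v.re : ℂ)‖ ≤ v.re + 3 := by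
    rw [Complex.norm_real, Real.norm_eq_abs, abs_of_nonneg hx]; linarith
  have h1 : v ^ k - (v.re : ℂ) ^ k =
      (∑ i ∈ Finset.range k, v ^ i * (v.re : ℂ) ^ (k - 1 - i)) * (v - v.re) :=
    (Commute.geom_sum₂_mul (Commute.all _ _) k).symm
  rw [h1, norm_mul]
  have h2 : ‖v - v.re‖ ≤ 3 * Real.exp (-v.re) := by
    have : v - (v.re : ℂ) = v.im * I := by
      apply Complex.ext <;> simp
    rw [this, norm_mul, Complex.norm_I, mul_one, Complex.norm_real]
    exact hy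
  have h3 : ‖∑ i ∈ Finset.range k, v ^ i * (v.re : ℂ) ^ (k - 1 - i)‖ ≤
      k * (v.re + 3) ^ (k - 1) := by
    refine (norm_sum_le _ _).trans ?_
    have : ∀ i ∈ Finset.range k, ‖v ^ i * (v.re : ℂ) ^ (k - 1 - i)‖ ≤ (v.re + 3) ^ (k - 1) := by
      intro i hi
      rw [Finset.mem_range] at hi
      rw [norm_mul, norm_pow, norm_pow]
      calc ‖v‖ ^ i * ‖(v.re : ℂ)‖ ^ (k - 1 - i) ≤ (v.re + 3) ^ i * (v.re + 3) ^ (k - 1 - i) := by
            gcongr
        _ = (v.re + 3) ^ (k - 1) := by rw [← pow_add]; congr 1; omega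
    refine (Finset.sum_le_sum this).trans ?_
    rw [Finset.sum_const, Finset.card_range, nsmul_eq_mul]
  calc _ ≤ (k * (v.re + 3) ^ (k - 1)) * (3 * Real.exp (-v.re)) := by
        gcongr
    _ = _ := by ring

lemma bound_aux (m : ℕ) {x : ℝ} (hx : 0 ≤ x) :
    Real.exp (-x) * (x + 3) ^ m ≤ m.factorial * Real.exp 3 := by
  have h := Real.pow_div_factorial_le_exp (x + 3) (by linarith) m
  rw [div_le_iff₀ (by positivity)] at h
  calc Real.exp (-x) * (x + 3) ^ m ≤ Real.exp (-x) * (Real.exp (x + 3) * m.factorial) := by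
        gcongr
    _ = m.factorial * (Real.exp (-x) * Real.exp (x + 3)) := by ring
    _ = m.factorial * Real.exp 3 := by rw [← Real.exp_add]; ring_nf

lemma pow_sub_bounded (k : ℕ) : ∃ C : ℝ, 0 ≤ C ∧ ∀ z ∈ D1, ‖vf z ^ k - ((vf z).re : ℂ) ^ k‖ ≤ C := by
  refine ⟨3 * k * ((k - 1).factorial * Real.exp 3), by positivity, fun z hz => ?_⟩
  refine (pow_sub_bound k hz).trans ?_
  have h := bound_aux (k - 1) (vf_re_nonneg hz)
  calc 3 * Real.exp (-(vf z).re) * (k * ((vf z).re + 3) ^ (k - 1)) =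
      3 * k * (Real.exp (-(vf z).re) * ((vf z).re + 3) ^ (k - 1)) := by ring
    _ ≤ _ := by gcongr

lemma tendsto_pow_sub (k : ℕ) :
    Tendsto (fun z => vf z ^ k - ((vf z).re : ℂ) ^ k) (𝓝[D1] 1) (𝓝 0) := by
  have h1 : Tendsto (fun x : ℝ => 3 * Real.exp (-x) * (k * (x + 3) ^ (k - 1))) atTop (𝓝 0) := by
    have h2 : Tendsto (fun x : ℝ => (x + 3) ^ (k - 1) * Real.exp (-(x + 3))) atTop (𝓝 0) :=
      (Real.tendsto_pow_mul_exp_neg_atTop_nhds_zero (k - 1)).comp
        (tendsto_atTop_add_const_right _ 3 tendsto_id)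
    have h3 := h2.const_mul (3 * k * Real.exp 3)
    rw [mul_zero] at h3
    refine h3.congr fun x => ?_
    have : Real.exp (-x) = Real.exp 3 * Real.exp (-(x + 3)) := by
      rw [← Real.exp_add]; ring_nf
    rw [this]; ring
  have h2 := h1.comp tendsto_vf_re
  apply squeeze_zero_norm' _ h2
  filter_upwards [self_mem_nhdsWithin] with z hz
  exact pow_sub_bound k hz

/-- the slowly rotating analytic functions -/
noncomputable def En (k : ℕ) (c : ℂ) (z : ℂ) : ℂ := exp (c * vf z ^ k)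

lemma continuousOn_En (k : ℕ) (c : ℂ) : ContinuousOn (En k c) D1 := by
  unfold En
  have := continuousOn_vf
  fun_prop

lemma differentiableOn_En (k : ℕ) (c : ℂ) : DifferentiableOn ℂ (En k c) (Metric.ball 0 1) := by
  unfold En
  have := differentiableOn_vf
  fun_prop

lemma bounded_En (k : ℕ) {c : ℂ} (hc : c = I ∨ c = -I) : ∃ M : ℝ, ∀ z ∈ D1, ‖En k c z‖ ≤ M := by
  obtain ⟨C, hC0, hC⟩ := pow_sub_bounded k
  refine ⟨Real.exp C, fun z hz => ?_⟩
  rw [En, Complex.norm_exp, Real.exp_le_exp]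
  have h1 : |(vf z ^ k).im| ≤ C := by
    have h2 : (vf z ^ k).im = (vf z ^ k - ((vf z).re : ℂ) ^ k).im := by
      rw [Complex.sub_im, ← Complex.ofReal_pow, Complex.ofReal_im, sub_zero]
    rw [h2]
    exact (Complex.abs_im_le_norm _).trans (hC z hz)
  rw [abs_le] at h1
  rcases hc with rfl | rfl
  · rw [Complex.I_mul_re]; linarith
  · rw [neg_mul, Complex.neg_re, Complex.I_mul_re]; linarith

lemma tendsto_En_sub (k : ℕ) {c : ℂ} (hc : c = I ∨ c = -I) :
    Tendsto (fun z => En k c z - exp (c * (((vf z).re ^ k : ℝ) : ℂ))) (𝓝[D1] 1) (𝓝 0) := by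
  have h1 := tendsto_pow_sub k
  have h2 : Tendsto (fun z => exp (c * (vf z ^ k - ((vf z).re : ℂ) ^ k)) - 1) (𝓝[D1] 1) (𝓝 0) := by
    have h3 : Continuous (fun w : ℂ => exp (c * w) - 1) := by fun_prop
    have h4 := (h3.tendsto 0).comp h1
    simpa [Function.comp_def] using h4
  have h3 : ∀ z, ‖En k c z - exp (c * (((vf z).re ^ k : ℝ) : ℂ))‖ =
      ‖exp (c * (vf z ^ k - ((vf z).re : ℂ) ^ k)) - 1‖ := by
    intro z
    have e : En k c z = exp (c * (((vf z).re ^ k : ℝ) : ℂ)) *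
        exp (c * (vf z ^ k - ((vf z).re : ℂ) ^ k)) := by
      rw [← Complex.exp_add, En]
      congr 1
      push_cast; ring
    have h4 : ‖exp (c * (((vf z).re ^ k : ℝ) : ℂ))‖ = 1 := by
      rcases hc with rfl | rfl
      · rw [mul_comm]; exact Complex.norm_exp_ofReal_mul_I _
      · have : -I * (((vf z).re ^ k : ℝ) : ℂ) = ((-(vf z).re ^ k : ℝ) : ℂ) * I := by
          push_cast; ring
        rw [this]; exact Complex.norm_exp_ofReal_mul_I _
    rw [e, show exp (c * (((vf z).re ^ k : ℝ) : ℂ)) *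
        exp (c * (vf z ^ k - ((vf z).re : ℂ) ^ k)) - exp (c * (((vf z).re ^ k : ℝ) : ℂ)) =
        exp (c * (((vf z).re ^ k : ℝ) : ℂ)) *
        (exp (c * (vf z ^ k - ((vf z).re : ℂ) ^ k)) - 1) by ring, norm_mul, h4, one_mul]
  rw [tendsto_zero_iff_norm_tendsto_zero]
  simp_rw [h3]
  exact tendsto_zero_iff_norm_tendsto_zero.1 h2

end Pool.Agent.Helper914.Corona
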