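import Pool.Agent.Helper914.Corona.Base
import Pool.Agent.Helper914.Corona.Slow

set_option autoImplicit false
open Filter Topology Complex MeasureTheory AddCircle
open scoped Real ComplexConjugate ENNReal

namespace Pool.Agent.Helper914.Corona
open Pool.Agent.Helper914.Corona.Toep

/-- the point of the unit circle belonging to `t` -/
noncomputable def ee (t : UnitAddCircle) : ℂ := fourier 1 t

lemma continuous_ee : Continuous ee := by
  unfold ee; exact (fourier 1).continuous

lemma norm_ee (t : UnitAddCircle) : ‖ee t‖ = 1 := by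
  rw [ee, fourier_one]; exact Circle.norm_coe _

lemma ee_coe (x : ℝ) : ee (x : UnitAddCircle) = exp (2 * π * x * I) := by
  rw [ee, fourier_coe_apply]
  congr 1
  push_cast; ring

lemma ee_zero : ee 0 = 1 := by
  have := ee_coe 0
  simpa using this

lemma ee_injective : Function.Injective ee := by
  intro s t h
  rw [ee, ee, fourier_one, fourier_one] at h
  exact AddCircle.injective_toCircle one_ne_zero (Subtype.ext h)

lemma ee_mem_D1 {t : UnitAddCircle} (ht : t ≠ 0) : ee t ∈ D1 := by
  refine ⟨by rw [mem_closedBall_zero_iff, norm_ee], ?_⟩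
  rw [Set.mem_singleton_iff, ← ee_zero]
  exact fun h => ht (ee_injective h)

lemma integral_eq_circle (g : ℂ → ℂ) (r : ℝ) :
    ∫ t, g (r * ee t) ∂mu = (2 * π)⁻¹ * ∫ θ in (0 : ℝ)..(2 * π), g (circleMap 0 r θ) := by
  have h := fourierCoeff_eq_intervalIntegral (T := 1) (fun t => g (r * ee t)) 0 0
  have h1 : fourierCoeff (T := 1) (fun t => g (r * ee t)) 0 = ∫ t, g (r * ee t) ∂mu := by
    rw [fourierCoeff]; simp
  rw [← h1, h]
  have h2 : ∀ x : ℝ, fourier (T := 1) (-0) (x : UnitAddCircle) • g (r * ee (x : UnitAddCircle)) =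
      (fun θ : ℝ => g (circleMap 0 r θ)) (2 * π * x) := by
    intro x
    rw [ee_coe]
    simp [circleMap]
  simp_rw [h2]
  rw [intervalIntegral.integral_comp_mul_left (fun θ : ℝ => g (circleMap 0 r θ))
    (by positivity : (2 * π : ℝ) ≠ 0)]
  simp

lemma circle_zero {h : ℂ → ℂ} (hd : DifferentiableOn ℂ h (Metric.ball 0 1)) {r : ℝ} (hr0 : 0 ≤ r)
    (hr : r < 1) (m : ℕ) :
    ∫ t, (r * ee t) ^ (m + 1) * h (r * ee t) ∂mu = 0 := by
  have hsub : Metric.closedBall (0 : ℂ) r ⊆ Metric.ball 0 1 := Metric.closedBall_subset_ball hr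
  have h1 : (∮ z in C(0, r), z ^ m * h z) = 0 := by
    apply Complex.circleIntegral_eq_zero_of_differentiable_on_off_countable hr0 Set.countable_empty
    · exact ((continuousOn_id.pow m).mul hd.continuousOn).mono hsub
    · intro z hz
      have hz' : z ∈ Metric.ball (0 : ℂ) 1 := hsub (Metric.ball_subset_closedBall hz.1)
      have := hd.differentiableAt (Metric.isOpen_ball.mem_nhds hz')
      fun_prop
  have h2 := integral_eq_circle (fun z => z ^ (m + 1) * h z) r
  rw [h2]
  have h3 : (∮ z in C(0, r), z ^ m * h z) =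
      I * ∫ θ in (0 : ℝ)..(2 * π), (circleMap 0 r θ) ^ (m + 1) * h (circleMap 0 r θ) := by
    rw [circleIntegral, ← intervalIntegral.integral_const_mul]
    apply intervalIntegral.integral_congr
    intro θ _
    simp only [deriv_circleMap, smul_eq_mul]
    ring
  rw [h3] at h1
  have h4 := (mul_eq_zero.1 h1).resolve_left Complex.I_ne_zero
  rw [h4, mul_zero]

lemma ae_ne_zero : ∀ᵐ t ∂mu, t ≠ 0 := by
  have : mu {(0 : UnitAddCircle)} = 0 := by
    have h1 := AddCircle.volume_closedBall (T := (1:ℝ)) (x := (0 : AddCircle (1:ℝ))) 0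
    rw [Metric.closedBall_zero, AddCircle.volume_eq_smul_haarAddCircle] at h1
    simpa using h1
  exact compl_mem_ae_iff.mpr this

lemma mem_Hi_of_analytic {h : ℂ → ℂ} (hd : DifferentiableOn ℂ h (Metric.ball 0 1))
    (hc : ContinuousOn h D1) {M : ℝ} (hb : ∀ z ∈ D1, ‖h z‖ ≤ M) {u : Li}
    (hu : ⇑u =ᵐ[mu] fun t => h (ee t)) : u ∈ Hi := by
  intro n hn
  obtain ⟨m, hm⟩ : ∃ m : ℕ, n = -((m : ℤ) + 1) := ⟨(-n).toNat - 1, by omega⟩
  rw [co_eq, fourierCoeff_congr_ae hu, fourierCoeff]
  have h1 : ∀ t : UnitAddCircle, fourier (-n) t • h (ee t) = ee t ^ (m + 1) * h (ee t) := by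
    intro t
    rw [hm, neg_neg, smul_eq_mul]
    congr 1
    rw [ee, fourier_apply, fourier_one]
    have : ((m : ℤ) + 1) • t = (m + 1 : ℕ) • t := by
      rw [← natCast_zsmul]; push_cast; rfl
    rw [this, AddCircle.toCircle_nsmul]
    simp
  simp_rw [h1]
  -- radial limit
  set rs : ℕ → ℝ := fun k => 1 - 1 / ((k : ℝ) + 2) with hrs
  have hrs0 : ∀ k, 0 ≤ rs k := by
    intro k
    rw [hrs]; simp only
    rw [sub_nonneg, div_le_one (by positivity)]
    have : (0 : ℝ) ≤ k := Nat.cast_nonneg k
    linarith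
  have hrs1 : ∀ k, rs k < 1 := by
    intro k
    rw [hrs]; simp only
    have : (0 : ℝ) < 1 / ((k : ℝ) + 2) := by positivity
    linarith
  have hrslim : Tendsto rs atTop (𝓝 1) := by
    have : Tendsto (fun k : ℕ => 1 / ((k : ℝ) + 2)) atTop (𝓝 0) := by
      have h2 := (tendsto_one_div_add_atTop_nhds_zero_nat (𝕜 := ℝ)).comp (tendsto_add_atTop_nat 1)
      refine h2.congr fun k => ?_
      simp only [Function.comp_apply]; push_cast; ring_nf
    have h3 := this.const_sub 1
    rwa [sub_zero] at h3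
  have hmem : ∀ k, ∀ t : UnitAddCircle, (rs k : ℂ) * ee t ∈ Metric.ball (0 : ℂ) 1 := by
    intro k t
    rw [mem_ball_zero_iff, norm_mul, norm_ee, mul_one, Complex.norm_real, Real.norm_eq_abs,
      abs_of_nonneg (hrs0 k)]
    exact hrs1 k
  have hM : 0 ≤ M := (norm_nonneg _).trans (hb 0 (ball_sub_D1 (by simp)))
  have hlim : Tendsto (fun k => ∫ t, (rs k * ee t) ^ (m + 1) * h (rs k * ee t) ∂mu) atTop
      (𝓝 (∫ t, ee t ^ (m + 1) * h (ee t) ∂mu)) := by
    apply tendsto_integral_of_dominated_convergence (fun _ => M)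
    · intro k
      have hcont : Continuous fun t => (rs k * ee t) ^ (m + 1) * h (rs k * ee t) := by
        have h1 : Continuous fun t => (rs k : ℂ) * ee t := continuous_const.mul continuous_ee
        have h2 : Continuous fun t => h ((rs k : ℂ) * ee t) :=
          hd.continuousOn.comp_continuous h1 (hmem k)
        exact (h1.pow _).mul h2
      exact hcont.aestronglyMeasurable
    · exact integrable_const M
    · intro k
      filter_upwards with t
      rw [norm_mul, norm_pow]
      have h1 := (mem_ball_zero_iff.1 (hmem k t)).le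
      calc ‖(rs k : ℂ) * ee t‖ ^ (m + 1) * ‖h (rs k * ee t)‖ ≤ 1 ^ (m + 1) * M := by
            gcongr
            exact hb _ (ball_sub_D1 (hmem k t))
        _ = M := by simp
    · filter_upwards [ae_ne_zero] with t ht
      have h1 : Tendsto (fun k => (rs k : ℂ) * ee t) atTop (𝓝[D1] (ee t)) := by
        rw [tendsto_nhdsWithin_iff]
        constructor
        · have : Tendsto (fun k => ((rs k : ℝ) : ℂ)) atTop (𝓝 ((1 : ℝ) : ℂ)) :=
            (Complex.continuous_ofReal.tendsto 1).comp hrslim
          have := this.mul_const (ee t)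
          simpa using this
        · exact Eventually.of_forall fun k => ball_sub_D1 (hmem k t)
      have h2 : Tendsto (fun k => h ((rs k : ℂ) * ee t)) atTop (𝓝 (h (ee t))) :=
        (hc (ee t) (ee_mem_D1 ht)).tendsto.comp h1
      have h3 : Tendsto (fun k => (rs k : ℂ) * ee t) atTop (𝓝 (ee t)) :=
        h1.mono_right nhdsWithin_le_nhds
      exact (h3.pow _).mul h2
  have h0 : (fun k => ∫ t, (rs k * ee t) ^ (m + 1) * h (rs k * ee t) ∂mu) = fun _ => 0 := by
    ext k
    exact circle_zero hd (hrs0 k) (hrs1 k) m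
  rw [h0] at hlim
  exact (tendsto_nhds_unique hlim tendsto_const_nhds)

end Pool.Agent.Helper914.Corona
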