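import Pool.Agent.Helper914.Corona.Surj

set_option autoImplicit false
open Filter Topology Complex MeasureTheory AddCircle
open scoped Real ComplexConjugate ENNReal BoundedContinuousFunction NNReal

namespace Pool.Agent.Helper914.Corona
open Pool.Agent.Helper914.Corona.Toep

lemma norm_one_Li : ‖(1 : Li)‖ = 1 := by
  have h : Nonempty YY := (inferInstance : NeBot L0).nonempty
  rw [← map_one io, norm_io, norm_one]

instance : NormOneClass Li := ⟨norm_one_Li⟩

instance : NormOneClass XX := ⟨norm_one_Li⟩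

lemma char_le (m : XX →ₐ[ℂ] ℂ) (f : XX) : ‖m f‖ ≤ ‖f‖ := AlgHom.norm_apply_le_self m f

/-- the coordinate function `z` -/
noncomputable def zX : XX := ⟨ex 1, ex1_mem⟩

lemma pkX_eq (a : UnitAddCircle) : pkX a = (1 / 2 : ℂ) • (1 + conj (ee a) • zX) := by
  apply Subtype.ext
  exact pk_eq a

lemma char_pkX (m : XX →ₐ[ℂ] ℂ) (a : UnitAddCircle) :
    m (pkX a) = 1 / 2 * (1 + conj (ee a) * m zX) := by
  rw [pkX_eq, map_smul, map_add, map_smul, map_one]; rfl

lemma char_pkX_one {m : XX →ₐ[ℂ] ℂ} {a : UnitAddCircle} (h : m zX = ee a) : m (pkX a) = 1 := by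
  rw [char_pkX, h, conj_ee_mul]; norm_num

lemma norm_zX_le : ‖zX‖ ≤ 1 := norm_ex 1

/-! ### boundary representatives -/

noncomputable def gXF (f : XX) : BY := (phi_Rep f).choose

lemma gXF_spec (f : XX) : (f : Li) = io (gXF f) := (phi_Rep f).choose_spec.1

lemma gXF_c0 (f : XX) : gXF f - sig (phi f) ∈ c0 := (phi_Rep f).choose_spec.2

lemma gXF_eq {f : XX} {g : BY} (h : (f : Li) = io g) : gXF f = g :=
  io_injective ((gXF_spec f).symm.trans h)

noncomputable def gX : XX →ₐ[ℂ] BY where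
  toFun := gXF
  map_one' := gXF_eq (map_one io).symm
  map_mul' a b := gXF_eq (by
    rw [map_mul, ← gXF_spec, ← gXF_spec]; rfl)
  map_zero' := gXF_eq (map_zero io).symm
  map_add' a b := gXF_eq (by
    rw [map_add, ← gXF_spec, ← gXF_spec]; rfl)
  commutes' c := gXF_eq (io.commutes c).symm

lemma gX_spec (f : XX) : io (gX f) = (f : Li) := (gXF_spec f).symm
lemma gX_c0 (f : XX) : gX f - sig (phi f) ∈ c0 := gXF_c0 f

lemma norm_gX (f : XX) : ‖gX f‖ = ‖f‖ := by
  rw [← norm_io, gX_spec]; rfl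

/-- evaluation at a boundary point different from `1` -/
noncomputable def evY (y : YY) : XX →ₐ[ℂ] ℂ :=
  { toFun := fun f => gX f y
    map_one' := by rw [map_one]; rfl
    map_mul' := fun a b => by rw [map_mul]; rfl
    map_zero' := by rw [map_zero]; rfl
    map_add' := fun a b => by rw [map_add]; rfl
    commutes' := fun c => by rw [gX.commutes]; rfl }

lemma evY_apply (y : YY) (f : XX) : evY y f = gX f y := rfl

/-- evaluation at a point of the fibre over `1` -/
noncomputable def evK (κ : KK) : XX →ₐ[ℂ] ℂ :=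
  { toFun := fun f => phi f κ
    map_one' := by rw [map_one]; rfl
    map_mul' := fun a b => by rw [map_mul]; rfl
    map_zero' := by rw [map_zero]; rfl
    map_add' := fun a b => by rw [map_add]; rfl
    commutes' := fun c => by rw [phi.commutes]; rfl }

lemma evK_apply (κ : KK) (f : XX) : evK κ f = phi f κ := rfl

/-- characters over points different from `1` -/
lemma char_Y {m : XX →ₐ[ℂ] ℂ} {y : YY} (h : m zX = ee y) : m = evY y := by
  ext f
  rw [evY_apply]
  set c := gX f y with hc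
  have hp : m (pkX y) = 1 := char_pkX_one h
  rw [← sub_eq_zero, ← norm_eq_zero]
  apply le_antisymm _ (norm_nonneg _)
  apply le_of_forall_pos_le_add
  intro ε hε
  rw [zero_add]
  set k : XX := f - algebraMap ℂ XX c with hk
  have h1 : ∀ᶠ x in comap (Subtype.val : YY → UnitAddCircle) (𝓝 (y : UnitAddCircle)),
      ‖gX k x‖ ≤ ε / 2 := by
    have h2 : ContinuousAt (gX k) y := (gX k).continuous.continuousAt
    have h3 : gX k y = 0 := by
      rw [hk, map_sub, gX.commutes]
      change gX f y - c = 0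
      rw [hc, sub_self]
    rw [ContinuousAt, h3, Metric.tendsto_nhds] at h2
    have h4 := h2 (ε / 2) (by linarith)
    rw [nhds_subtype_eq_comap] at h4
    filter_upwards [h4] with x hx
    rw [dist_zero_right] at hx
    exact hx.le
  obtain ⟨N, hN⟩ := peak_small (y : UnitAddCircle) (gX k) (by linarith) h1
    (ε := ε / 2) (by linarith)
  have h5 : m f - c = m (k * pkX y ^ N) := by
    rw [map_mul, map_pow, hp, one_pow, mul_one, hk, map_sub, m.commutes]; rfl
  rw [h5]
  refine (char_le m _).trans ?_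
  have h6 : ‖k * pkX y ^ N‖ = ‖io (gX k) * pk y ^ N‖ := by
    rw [gX_spec]; rfl
  rw [h6]; linarith

noncomputable def lf (F : ↥TT) : XX := (exists_lift F.2).choose

lemma lf_spec (F : ↥TT) : phi (lf F) = F := (exists_lift F.2).choose_spec

section fibre

variable {m : XX →ₐ[ℂ] ℂ} (h : m zX = 1)
include h

lemma fibre_le (f : XX) : ‖m f‖ ≤ ‖phi f‖ := by
  have hp : m (pkX 0) = 1 := char_pkX_one (by rw [ee_zero]; exact h)
  apply le_of_forall_pos_le_add
  intro ε hε
  obtain ⟨N, hN⟩ := localise f hε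
  have : m f = m (f * pkX 0 ^ N) := by rw [map_mul, map_pow, hp, one_pow, mul_one]
  rw [this]
  exact (char_le m _).trans hN

lemma fibre_eq {f f' : XX} (hff : phi f = phi f') : m f = m f' := by
  have h1 := fibre_le h (f - f')
  rw [map_sub, map_sub, hff, sub_self, norm_zero] at h1
  exact sub_eq_zero.1 (norm_eq_zero.1 (le_antisymm h1 (norm_nonneg _)))

/-- the induced character of the fibre algebra -/
noncomputable def mm : ↥TT →ₐ[ℂ] ℂ :=
  { toFun := fun F => m (lf F)
    map_one' := by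
      rw [← map_one m]
      exact fibre_eq h (by rw [lf_spec, map_one]; rfl)
    map_mul' := fun a b => by
      rw [← map_mul m]
      exact fibre_eq h (by rw [lf_spec, map_mul, lf_spec, lf_spec]; rfl)
    map_zero' := by
      refine (fibre_eq h (f' := 0) ?_).trans (map_zero m)
      rw [lf_spec, map_zero]; rfl
    map_add' := fun a b => by
      rw [← map_add m]
      exact fibre_eq h (by rw [lf_spec, map_add, lf_spec, lf_spec]; rfl)
    commutes' := fun c => by
      rw [← m.commutes]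
      exact fibre_eq h (by rw [lf_spec, phi.commutes]; rfl) }

lemma mm_eq (f : XX) : m f = mm h ⟨phi f, phi_mem f⟩ := fibre_eq h (by rw [lf_spec])

lemma mm_le (F : ↥TT) : ‖mm h F‖ ≤ ‖(F : C(KK, ℂ))‖ := by
  have h1 := fibre_le h (lf F)
  rw [lf_spec] at h1
  exact h1

end fibre

lemma Ft_mul_mem (H : C(KK, ℂ)) : Ft * H ∈ TT := mem_TT_of_zero fun w => by
  rw [ContinuousMap.mul_apply, Ft_zero, zero_mul]

lemma char_CK (φ : C(KK, ℂ) →ₐ[ℂ] ℂ) : ∃ κ, ∀ F, φ F = F κ := by
  obtain ⟨κ, hκ⟩ := (WeakDual.CharacterSpace.continuousMapEval_bijective (X := KK) (𝕜 := ℂ)).2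
    (WeakDual.CharacterSpace.equivAlgHom.symm φ)
  refine ⟨κ, fun F => ?_⟩
  have := DFunLike.congr_fun hκ F
  exact this.symm

lemma char_TT (μ : ↥TT →ₐ[ℂ] ℂ) (hμ : ∀ F, ‖μ F‖ ≤ ‖(F : C(KK, ℂ))‖) :
    ∃ κ : KK, ∀ F : ↥TT, μ F = (F : C(KK, ℂ)) κ := by
  set t0 := μ ⟨Ft, Ft_mem⟩ with ht0
  by_cases h0 : t0 = 0
  · -- bottom case
    have h1 : ∀ H : C(KK, ℂ), μ ⟨Ft * H, Ft_mul_mem H⟩ = 0 := by
      intro H
      have h2 : (μ ⟨Ft * H, Ft_mul_mem H⟩) ^ 2 = 0 := by
        rw [← map_pow]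
        have e : (⟨Ft * H, Ft_mul_mem H⟩ : ↥TT) ^ 2 =
            ⟨Ft, Ft_mem⟩ * ⟨Ft * (H * H), Ft_mul_mem (H * H)⟩ := by
          apply Subtype.ext
          change (Ft * H) ^ 2 = Ft * (Ft * (H * H))
          ring
        rw [e, map_mul, ← ht0, h0, zero_mul]
      exact pow_eq_zero_iff two_ne_zero |>.1 h2
    have h2 : ∀ G : ↥TT, (∀ w, (G : C(KK, ℂ)) (0, w) = 0) → μ G = 0 := by
      intro G hG
      rw [← norm_eq_zero]
      apply le_antisymm _ (norm_nonneg _)
      apply le_of_forall_pos_le_add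
      intro ε hε
      rw [zero_add]
      obtain ⟨H, hH⟩ := approx_of_zero hG hε
      have e : μ (G - ⟨Ft * H, Ft_mul_mem H⟩) = μ G - μ ⟨Ft * H, Ft_mul_mem H⟩ := map_sub μ _ _
      rw [h1, sub_zero] at e
      rw [← e]
      exact (hμ _).trans hH
    set w0 := μ ⟨Fw, Fw_mem⟩ with hw0
    have hw1 : ‖w0‖ ≤ 1 := by
      refine (hμ _).trans ?_
      rw [ContinuousMap.norm_le _ zero_le_one]
      intro κ
      exact mem_closedBall_zero_iff.1 κ.2.2
    let κ : KK := (0, ⟨w0, by rwa [mem_closedBall_zero_iff]⟩)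
    let R0 : Subalgebra ℂ C(KK, ℂ) :=
      { carrier := {F | ∃ hF : F ∈ TT, μ ⟨F, hF⟩ = F κ}
        mul_mem' := by
          rintro a b ⟨ha, ha'⟩ ⟨hb, hb'⟩
          refine ⟨TT.mul_mem ha hb, ?_⟩
          have e : (⟨a * b, TT.mul_mem ha hb⟩ : ↥TT) = ⟨a, ha⟩ * ⟨b, hb⟩ := rfl
          rw [e, map_mul, ha', hb']; rfl
        add_mem' := by
          rintro a b ⟨ha, ha'⟩ ⟨hb, hb'⟩
          refine ⟨TT.add_mem ha hb, ?_⟩
          have e : (⟨a + b, TT.add_mem ha hb⟩ : ↥TT) = ⟨a, ha⟩ + ⟨b, hb⟩ := rfl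
          rw [e, map_add, ha', hb']; rfl
        algebraMap_mem' := fun c => ⟨TT.algebraMap_mem c, by
          have e : (⟨algebraMap ℂ C(KK, ℂ) c, TT.algebraMap_mem c⟩ : ↥TT) =
            algebraMap ℂ ↥TT c := rfl
          rw [e, μ.commutes]; rfl⟩ }
    have hR0 : IsClosed (R0 : Set C(KK, ℂ)) := by
      apply IsSeqClosed.isClosed
      intro U F hU hF
      have hFT : F ∈ TT := TT_of_seq (fun n => (hU n).1) hF
      refine ⟨hFT, ?_⟩
      have h3 : Tendsto (fun n => μ ⟨U n, (hU n).1⟩) atTop (𝓝 (μ ⟨F, hFT⟩)) := by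
        rw [tendsto_iff_norm_sub_tendsto_zero] at hF ⊢
        apply squeeze_zero (fun _ => norm_nonneg _) _ hF
        intro n
        have e : μ (⟨U n, (hU n).1⟩ - ⟨F, hFT⟩) = μ ⟨U n, (hU n).1⟩ - μ ⟨F, hFT⟩ := map_sub μ _ _
        rw [← e]
        exact hμ _
      have h4 : Tendsto (fun n => μ ⟨U n, (hU n).1⟩) atTop (𝓝 (F κ)) := by
        have h5 : (fun n => μ ⟨U n, (hU n).1⟩) = fun n => U n κ := by
          ext n; exact (hU n).2
        rw [h5]
        exact ((continuous_eval_const κ).tendsto F).comp hF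
      exact tendsto_nhds_unique h3 h4
    refine ⟨κ, fun F => ?_⟩
    obtain ⟨h4, h3⟩ := TT_le hR0 ⟨Fw_mem, rfl⟩ (fun G hG => ⟨mem_TT_of_zero hG, by
      rw [h2 ⟨G, mem_TT_of_zero hG⟩ hG]
      exact (hG _).symm⟩) F.2
    exact h3
  · -- upper case
    let φ : C(KK, ℂ) →ₐ[ℂ] ℂ :=
      { toFun := fun H => μ ⟨Ft * H, Ft_mul_mem H⟩ / t0
        map_one' := by
          have e : (⟨Ft * 1, Ft_mul_mem 1⟩ : ↥TT) = ⟨Ft, Ft_mem⟩ := Subtype.ext (mul_one _)
          rw [e, ← ht0, div_self h0]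
        map_mul' := fun a b => by
          have e : (⟨Ft * a, Ft_mul_mem a⟩ : ↥TT) * ⟨Ft * b, Ft_mul_mem b⟩ =
              ⟨Ft, Ft_mem⟩ * ⟨Ft * (a * b), Ft_mul_mem (a * b)⟩ := by
            apply Subtype.ext
            change (Ft * a) * (Ft * b) = Ft * (Ft * (a * b))
            ring
          have e2 := congrArg μ e
          rw [map_mul, map_mul, ← ht0] at e2
          rw [div_mul_div_comm, e2]
          field_simp
        map_zero' := by
          have e : (⟨Ft * 0, Ft_mul_mem 0⟩ : ↥TT) = 0 := Subtype.ext (mul_zero _)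
          rw [e, map_zero, zero_div]
        map_add' := fun a b => by
          have e : (⟨Ft * (a + b), Ft_mul_mem _⟩ : ↥TT) =
              ⟨Ft * a, Ft_mul_mem a⟩ + ⟨Ft * b, Ft_mul_mem b⟩ := Subtype.ext (mul_add _ _ _)
          rw [e, map_add, add_div]
        commutes' := fun c => by
          have e : (⟨Ft * algebraMap ℂ C(KK, ℂ) c, Ft_mul_mem _⟩ : ↥TT) =
              c • ⟨Ft, Ft_mem⟩ := by
            apply Subtype.ext
            change Ft * algebraMap ℂ C(KK, ℂ) c = c • Ft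
            rw [mul_comm]
            exact (Algebra.smul_def c Ft).symm
          rw [e, map_smul, ← ht0, smul_eq_mul, mul_div_assoc, div_self h0, mul_one]; rfl }
    obtain ⟨κ, hκ⟩ := char_CK φ
    refine ⟨κ, fun F => ?_⟩
    rw [← hκ]
    change μ F = μ ⟨Ft * F, Ft_mul_mem F⟩ / t0
    have e : (⟨Ft * F, Ft_mul_mem F⟩ : ↥TT) = ⟨Ft, Ft_mem⟩ * F := rfl
    rw [e, map_mul, ← ht0]
    field_simp

/-- characters over the point `1` -/
lemma char_K {m : XX →ₐ[ℂ] ℂ} (h : m zX = 1) : ∃ κ : KK, m = evK κ := by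
  obtain ⟨κ, hκ⟩ := char_TT (mm h) (mm_le h)
  refine ⟨κ, ?_⟩
  ext f
  rw [mm_eq h f, hκ]; rfl

lemma evK_zX (κ : KK) : evK κ zX = 1 := by
  rw [evK_apply]
  have : phi zX = algebraMap ℂ C(KK, ℂ) (fourier 1 (0 : UnitAddCircle)) :=
    phi_eq (Rep.jj (fourier 1))
  rw [this]
  change ee 0 = 1
  exact ee_zero

lemma evY_zX (y : YY) : evY y zX = ee y := by
  rw [evY_apply]
  have : gX zX = res (fourier 1) := gXF_eq (jj_eq_io (fourier 1))
  rw [this]; rfl

end Pool.Agent.Helper914.Corona
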