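import Pool.Agent.Helper914.Corona.Base

set_option autoImplicit false
open Filter Topology Complex MeasureTheory AddCircle
open scoped Real ComplexConjugate ENNReal

namespace Pool.Agent.Helper914.Corona
open Pool.Agent.Helper914.Corona.Toep

lemma integL_eq_co (u : Li) : integL u = co 0 u := by
  rw [co_def]; simp [ex_zero]

/-- the backward shifts of `I` -/
noncomputable def gm (I : Li) (m : ℕ) : Li :=
  ex (-(m : ℤ)) * (I - ∑ j ∈ Finset.range m, co j I • ex j)

lemma co_gm {I : Li} (hI : I ∈ Hi) (m : ℕ) (k : ℤ) :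
    co k (gm I m) = if 0 ≤ k then co (k + m) I else 0 := by
  rw [gm, co_ex_mul, map_sub, map_sum]
  have h1 : ∀ j : ℕ, co (k - -(m : ℤ)) (co j I • ex j) =
      if k + m = j then co j I else 0 := by
    intro j
    rw [map_smul, co_ex, smul_eq_mul]
    by_cases h : k + m = j
    · rw [if_pos h, if_pos (by omega), mul_one]
    · rw [if_neg h, if_neg (by omega), mul_zero]
  simp_rw [h1]
  rw [show k - -(m : ℤ) = k + m by ring]
  by_cases hk : 0 ≤ k
  · rw [if_pos hk, Finset.sum_eq_zero, sub_zero]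
    intro j hj
    rw [Finset.mem_range] at hj
    rw [if_neg (by omega)]
  · rw [if_neg hk]
    push Not at hk
    by_cases h : 0 ≤ k + m
    · obtain ⟨i, hi⟩ := Int.eq_ofNat_of_zero_le h
      have him : i < m := by omega
      rw [Finset.sum_eq_single i]
      · rw [if_pos hi, hi, sub_self]
      · intro j _ hj
        rw [if_neg (by omega)]
      · intro h'
        exact absurd (Finset.mem_range.2 him) h'
    · push Not at h
      rw [hI _ h, Finset.sum_eq_zero, sub_zero]
      intro j _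
      rw [if_neg (by omega)]

lemma gm_mem {I : Li} (hI : I ∈ Hi) (m : ℕ) : gm I m ∈ Hi := by
  intro k hk
  rw [co_gm hI, if_neg (by omega)]

lemma cj_mul_gm {I : Li} (hI : I ∈ Hi) (hin : cj I * I = 1) (m : ℕ) (hm : 1 ≤ m) :
    cj I * gm I m ∈ Hm := by
  have h : cj I * gm I m = ex (-(m : ℤ)) -
      ∑ j ∈ Finset.range m, co j I • (cj I * ex ((j : ℤ) - m)) := by
    rw [gm]
    have h1 : cj I * (ex (-(m : ℤ)) * (I - ∑ j ∈ Finset.range m, co j I • ex j)) =
        ex (-(m : ℤ)) * (cj I * I) -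
          cj I * (ex (-(m : ℤ)) * ∑ j ∈ Finset.range m, co j I • ex j) := by ring
    rw [h1, hin, mul_one, Finset.mul_sum, Finset.mul_sum]
    congr 1
    apply Finset.sum_congr rfl
    intro j _
    rw [mul_smul_comm, mul_smul_comm, ex_mul]
    congr 3
    ring
  rw [h]
  apply Submodule.sub_mem
  · intro k hk
    rw [co_ex, if_neg (by omega)]
  · apply Submodule.sum_mem
    intro j hj
    rw [Finset.mem_range] at hj
    apply Submodule.smul_mem
    apply mul_mem_Hm (cj_mem_Hn hI)
    intro k hk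
    rw [co_ex, if_neg (by omega)]

lemma integL_Hm {u : Li} (hu : u ∈ Hm) : integL u = 0 := by
  rw [integL_eq_co]; exact hu 0 le_rfl

lemma norm_two_mul (u v : Li) : ‖two (u * v)‖ ≤ ‖u‖ * ‖two v‖ := by
  apply Lp.norm_le_mul_norm_of_ae_le_mul
  filter_upwards [coeFn_two (u * v), coeFn_two v, coeFn_mul u v, ae_norm_le u] with t h1 h2 h3 h4
  rw [h1, h2, h3, norm_mul]
  gcongr

lemma decay {I : Li} (hI : I ∈ Hi) (hin : cj I * I = 1) {n : ℕ} {h : Li} (hh : h ∈ Hi)
    (hd : ‖ex n - I * h‖ ≤ 1 / 2) (m : ℕ) (hm : 1 ≤ m) :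
    ‖two (gm I (m + n))‖ ≤ ‖two (gm I m)‖ / 2 := by
  set f := gm I m
  set g := gm I (m + n)
  have hf : f ∈ Hi := gm_mem hI m
  have hg : g ∈ Hi := gm_mem hI (m + n)
  -- first orthogonality
  have h1 : integL (cj (ex n * g) * (f - ex n * g)) = 0 := by
    have e : cj (ex n * g) * (f - ex n * g) = cj g * (ex (-(n : ℤ)) * (f - ex n * g)) := by
      rw [cj_mul, cj_ex]; ring
    rw [e]
    apply integL_Hm
    apply mul_mem_Hm (cj_mem_Hn hg)
    intro k hk
    rw [co_ex_mul, map_sub, co_ex_mul, co_gm hI, co_gm hI]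
    rw [if_pos (by omega), if_pos (by omega), sub_eq_zero]
    congr 2
    push_cast; ring
  have h2 : integL (cj (I * h * g) * f) = 0 := by
    have e : cj (I * h * g) * f = cj (h * g) * (cj I * f) := by
      rw [cj_mul, cj_mul, cj_mul]; ring
    rw [e]
    apply integL_Hm
    exact mul_mem_Hm (cj_mem_Hn (mul_mem_Hi hh hg)) (cj_mul_gm hI hin m hm)
  have h3 : integL (cj ((ex n - I * h) * g) * f) = integL (cj g * g) := by
    have e : cj ((ex n - I * h) * g) * f = cj (ex n * g) * (f - ex n * g) +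
        cj (ex n * g) * (ex n * g) - cj (I * h * g) * f := by
      have : cj ((ex n - I * h) * g) = cj (ex n * g) - cj (I * h * g) := by
        rw [show (ex n - I * h) * g = ex n * g + (-1 : ℂ) • (I * h * g) by
          rw [neg_one_smul]; ring, cj_add, cj_smul]
        simp [sub_eq_add_neg]
      rw [this]; ring
    rw [e, map_sub, map_add, h1, h2, zero_add, sub_zero]
    congr 1
    rw [cj_mul, cj_ex]
    have : ex (-(n : ℤ)) * cj g * (ex n * g) = (ex (-(n : ℤ)) * ex n) * (cj g * g) := by ring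
    rw [this, ex_mul]
    simp [ex_zero]
  rw [← two_inner, ← two_inner] at h3
  have h4 : ‖two g‖ ^ 2 ≤ ‖ex n - I * h‖ * ‖two g‖ * ‖two f‖ := by
    have h5 : ‖(inner ℂ (two g) (two g) : ℂ)‖ = ‖two g‖ ^ 2 := by
      rw [inner_self_eq_norm_sq_to_K]; simp
    rw [← h5, ← h3]
    refine (norm_inner_le_norm _ _).trans ?_
    gcongr
    exact norm_two_mul _ _
  have h6 : ‖two g‖ ^ 2 ≤ 1 / 2 * ‖two g‖ * ‖two f‖ := by
    refine h4.trans ?_
    gcongr
  by_cases h0 : ‖two g‖ = 0
  · rw [h0]; positivity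
  · have hpos : 0 < ‖two g‖ := lt_of_le_of_ne (norm_nonneg _) (Ne.symm h0)
    nlinarith

lemma norm_co_le_two (u : Li) (n : ℤ) : ‖co n u‖ ≤ ‖two u‖ := by
  rw [← two_coeff]
  refine (norm_inner_le_norm _ _).trans ?_
  rw [fourierBasis.orthonormal.1 n, one_mul]

lemma summable_of_halving {a : ℕ → ℝ} (ha : ∀ m, 0 ≤ a m) (n : ℕ) (h : ∀ m, a (m + n) ≤ a m / 2) :
    Summable a := by
  apply summable_of_sum_range_le (c := 2 * ∑ m ∈ Finset.range n, a m) ha
  intro M
  have h1 : ∑ m ∈ Finset.range M, a m ≤ ∑ m ∈ Finset.range (n + M), a m := by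
    apply Finset.sum_le_sum_of_subset_of_nonneg
    · intro x hx; rw [Finset.mem_range] at *; omega
    · intro i _ _; exact ha i
  rw [Finset.sum_range_add] at h1
  have h2 : ∑ x ∈ Finset.range M, a (n + x) ≤ (∑ x ∈ Finset.range M, a x) / 2 := by
    rw [Finset.sum_div]
    apply Finset.sum_le_sum
    intro x _
    rw [add_comm]; exact h x
  linarith

lemma eq_jj_of_summable {u : Li} (h : Summable fun k : ℤ => ‖co k u‖) :
    ∃ c : C(UnitAddCircle, ℂ), u = jj c := by
  have h1 : Summable fun k : ℤ => co k u • (fourier k : C(UnitAddCircle, ℂ)) := by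
    apply Summable.of_norm
    refine h.congr fun k => ?_
    rw [norm_smul, fourier_norm, mul_one]
  refine ⟨∑' k : ℤ, co k u • (fourier k : C(UnitAddCircle, ℂ)), ?_⟩
  apply ext_co
  intro n
  have h2 := (h1.hasSum.mapL jj).mapL (co n)
  have h3 : (fun k : ℤ => co n (jj (co k u • (fourier k : C(UnitAddCircle, ℂ))))) =
      fun k : ℤ => if k = n then co n u else 0 := by
    ext k
    rw [map_smul, map_smul]
    have : co n (jj (fourier k)) = if n = k then 1 else 0 := co_ex n k
    rw [this, smul_eq_mul]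
    by_cases hk : k = n
    · rw [if_pos hk, if_pos hk.symm, mul_one, hk]
    · rw [if_neg hk, if_neg (fun h => hk h.symm), mul_zero]
  rw [h3] at h2
  exact (hasSum_ite_eq n (co n u)).unique h2

/-- an inner function that is close to being invertible in `H^∞ + C` is continuous -/
theorem inner_continuous {I : Li} (hI : I ∈ Hi) (hin : cj I * I = 1) {n : ℕ} {h : Li}
    (hh : h ∈ Hi) (hd : ‖ex n - I * h‖ ≤ 1 / 2) : ∃ c : C(UnitAddCircle, ℂ), I = jj c := by
  apply eq_jj_of_summable
  have h1 : Summable fun m : ℕ => ‖two (gm I (m + 1))‖ := by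
    apply summable_of_halving (fun m => norm_nonneg _) n
    intro m
    rw [show m + n + 1 = m + 1 + n by ring]
    exact decay hI hin hh hd (m + 1) (by omega)
  have h2 : Summable fun m : ℕ => ‖co ((m + 1 : ℕ) : ℤ) I‖ := by
    apply Summable.of_nonneg_of_le (fun m => norm_nonneg _) _ h1
    intro m
    have h3 := norm_co_le_two (gm I (m + 1)) 0
    rwa [co_gm hI, if_pos le_rfl, zero_add] at h3
  have h3 : Summable fun m : ℕ => ‖co (m : ℤ) I‖ :=
    (summable_nat_add_iff (f := fun m : ℕ => ‖co (m : ℤ) I‖) 1).1 h2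
  rw [summable_int_iff_summable_nat_and_neg]
  refine ⟨h3, ?_⟩
  rw [← summable_nat_add_iff 1]
  have : (fun m : ℕ => ‖co (-((m + 1 : ℕ) : ℤ)) I‖) = fun _ => 0 := by
    ext m
    rw [hI _ (by omega), norm_zero]
  rw [this]
  exact summable_zero

end Pool.Agent.Helper914.Corona
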