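import Mathlib

set_option autoImplicit false
open Filter Topology Complex
open scoped Real

namespace Pool.Agent.Helper914.Corona

/-- the fibre space `[0,1] × closed unit disc` -/
abbrev KK : Type := unitInterval × Metric.closedBall (0 : ℂ) 1

lemma norm_exp_I_sub (x y : ℝ) : ‖exp (x * I) - exp (y * I)‖ ≤ |x - y| := by
  have h : exp (x * I) - exp (y * I) = exp (y * I) * (exp ((x - y : ℝ) * I) - 1) := by
    rw [mul_sub, ← Complex.exp_add]; push_cast; ring_nf
  rw [h, norm_mul, Complex.norm_exp_ofReal_mul_I, one_mul]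
  have := Real.norm_exp_I_mul_ofReal_sub_one_le (x := x - y)
  rw [mul_comm I] at this
  simpa [Real.norm_eq_abs] using this

lemma exists_cong (A b : ℝ) : ∃ m : ℤ, A ≤ b + 2 * π * m ∧ b + 2 * π * m ≤ A + 2 * π := by
  refine ⟨⌈(A - b) / (2 * π)⌉, ?_, ?_⟩
  · have h := Int.le_ceil ((A - b) / (2 * π))
    rw [div_le_iff₀ Real.two_pi_pos] at h
    linarith
  · have h := (Int.ceil_lt_add_one ((A - b) / (2 * π))).le
    have h2 : (⌈(A - b) / (2 * π)⌉ : ℝ) - 1 ≤ (A - b) / (2 * π) := by linarith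
    rw [le_div_iff₀ Real.two_pi_pos] at h2
    linarith

lemma exp_cong (b : ℝ) (m : ℤ) : exp ((b + 2 * π * m : ℝ) * I) = exp (b * I) := by
  push_cast
  rw [add_mul, Complex.exp_add]
  have : (2 * (π : ℂ) * m) * I = m * (2 * π * I) := by ring
  rw [this, Complex.exp_int_mul_two_pi_mul_I, mul_one]

/-- the curve `(s, s², s⁴)` is dense mod `2π` at infinity -/
lemma path_dense (a b c δ S : ℝ) (hδ : 0 < δ) : ∃ s : ℝ, S ≤ s ∧
    ‖exp (s * I) - exp (a * I)‖ < δ ∧ ‖exp ((s ^ 2 : ℝ) * I) - exp (b * I)‖ < δ ∧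
    ‖exp ((s ^ 4 : ℝ) * I) - exp (c * I)‖ < δ := by
  obtain ⟨m, hm, -⟩ := exists_cong (max S (max 1 (8 / δ))) a
  set A := a + 2 * π * m with hA
  have hAS : S ≤ A := (le_max_left _ _).trans hm
  have hA1 : 1 ≤ A := ((le_max_left _ _).trans (le_max_right _ _)).trans hm
  have hA8 : 8 / δ ≤ A := ((le_max_right _ _).trans (le_max_right _ _)).trans hm
  have h8 : 8 ≤ A * δ := by rwa [div_le_iff₀ hδ] at hA8
  obtain ⟨k, hk1, hk2⟩ := exists_cong (A ^ 2) b
  set V := b + 2 * π * k with hV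
  have hV0 : 0 ≤ V := (sq_nonneg A).trans hk1
  set s1 := Real.sqrt V with hs1
  have hs1sq : s1 ^ 2 = V := Real.sq_sqrt hV0
  have hs1A : A ≤ s1 := Real.le_sqrt_of_sq_le hk1
  obtain ⟨l, hl1, hl2⟩ := exists_cong (s1 ^ 4) c
  set W := c + 2 * π * l with hW
  have hW0 : 0 ≤ W := by have : 0 ≤ s1 ^ 4 := by positivity
                         linarith
  set r := Real.sqrt W with hr
  have hrsq : r ^ 2 = W := Real.sq_sqrt hW0
  have hr0 : 0 ≤ r := Real.sqrt_nonneg _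
  have hrs : s1 ^ 2 ≤ r := Real.le_sqrt_of_sq_le (by nlinarith [hl1])
  set s := Real.sqrt r with hs
  have hssq : s ^ 2 = r := Real.sq_sqrt hr0
  have hs1s : s1 ≤ s := Real.le_sqrt_of_sq_le hrs
  have hπ : π < 4 := Real.pi_lt_four
  have hs14 : s ^ 4 = W := by rw [← hrsq, ← hssq]; ring
  have e1 : s1 - A ≤ 4 / A := by
    rw [le_div_iff₀ (by linarith)]
    nlinarith
  have e2 : r - s1 ^ 2 ≤ 4 / A := by
    rw [le_div_iff₀ (by linarith)]
    have h1 : (r - s1 ^ 2) * (r + s1 ^ 2) ≤ 2 * π := by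
      have : (r - s1 ^ 2) * (r + s1 ^ 2) = r ^ 2 - s1 ^ 4 := by ring
      rw [this, hrsq]; linarith
    have h3 : A ≤ s1 ^ 2 := by
      have : s1 * 1 ≤ s1 * s1 := mul_le_mul_of_nonneg_left (by linarith) (by linarith)
      nlinarith
    have h2 : 2 * A ≤ r + s1 ^ 2 := by linarith
    have h4 := mul_le_mul_of_nonneg_left h2 (sub_nonneg.2 hrs)
    linarith
  have e3 : s - s1 ≤ (r - s1 ^ 2) / 2 := by
    have h1 : (s - s1) * (s + s1) = r - s1 ^ 2 := by rw [← hssq]; ring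
    nlinarith
  have e4 : 4 / A ≤ δ / 2 := by
    rw [div_le_iff₀ (by linarith)]
    nlinarith
  refine ⟨s, by linarith, ?_, ?_, ?_⟩
  · rw [← exp_cong a m, ← hA]
    refine (norm_exp_I_sub s A).trans_lt ?_
    rw [abs_of_nonneg (by linarith)]
    linarith
  · rw [← exp_cong b k, ← hV]
    refine (norm_exp_I_sub _ _).trans_lt ?_
    rw [abs_of_nonneg (by linarith [hssq, hs1sq]), hssq, ← hs1sq]
    linarith
  · rw [← exp_cong c l, ← hW, hs14]
    simpa using hδ

/-- the first coordinate of the path -/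
noncomputable def q1 (s : ℝ) : unitInterval :=
  ⟨(1 + Real.cos s) / 2, by
    constructor
    · linarith [Real.neg_one_le_cos s]
    · linarith [Real.cos_le_one s]⟩

noncomputable def q2 (s : ℝ) : Metric.closedBall (0 : ℂ) 1 :=
  ⟨(exp ((s ^ 2 : ℝ) * I) + exp ((s ^ 4 : ℝ) * I)) / 2, by
    rw [mem_closedBall_zero_iff, norm_div]
    have h := norm_add_le (exp ((s ^ 2 : ℝ) * I)) (exp ((s ^ 4 : ℝ) * I))
    rw [Complex.norm_exp_ofReal_mul_I, Complex.norm_exp_ofReal_mul_I] at h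
    rw [Complex.norm_two]
    linarith⟩

noncomputable def qq (s : ℝ) : KK := (q1 s, q2 s)

lemma continuous_qq : Continuous qq := by
  unfold qq q1 q2
  fun_prop

lemma cos_eq_exp (s : ℝ) : ((Real.cos s : ℝ) : ℂ) = (exp (s * I)).re := by
  rw [Complex.exp_ofReal_mul_I_re]

/-- every point of the fibre space is approached along the path -/
lemma qq_dense (κ : KK) (U : Set KK) (hU : U ∈ 𝓝 κ) (S : ℝ) : ∃ s : ℝ, S ≤ s ∧ qq s ∈ U := by
  obtain ⟨t0, w0⟩ := κ
  obtain ⟨δ, hδ, hball⟩ := Metric.mem_nhds_iff.1 hU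
  obtain ⟨t, ht0, ht1⟩ := t0
  obtain ⟨w, hw⟩ := w0
  rw [mem_closedBall_zero_iff] at hw
  set a := Real.arccos (2 * t - 1)
  have ha : (1 + Real.cos a) / 2 = t := by
    rw [Real.cos_arccos (by linarith) (by linarith)]; ring
  set β := Real.arccos ‖w‖
  have hβ : Real.cos β = ‖w‖ := Real.cos_arccos (by linarith [norm_nonneg w]) hw
  set φ := Complex.arg w
  have hbc : (exp ((φ + β : ℝ) * I) + exp ((φ - β : ℝ) * I)) / 2 = w := by
    have h1 : exp ((φ + β : ℝ) * I) = exp (φ * I) * exp (β * I) := by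
      rw [← Complex.exp_add]; push_cast; ring_nf
    have h2 : exp ((φ - β : ℝ) * I) = exp (φ * I) * exp (-(β * I)) := by
      rw [← Complex.exp_add]; push_cast; ring_nf
    have h3 : exp (β * I) + exp (-(β * I)) = 2 * (‖w‖ : ℂ) := by
      rw [← hβ, Complex.ofReal_cos, Complex.cos]
      ring_nf
    rw [h1, h2, ← mul_add, h3]
    have h4 : (‖w‖ : ℂ) * exp (φ * I) = w := Complex.norm_mul_exp_arg_mul_I w
    calc exp (φ * I) * (2 * (‖w‖ : ℂ)) / 2 = ‖w‖ * exp (φ * I) := by ring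
      _ = w := h4
  obtain ⟨s, hs, h1, h2, h3⟩ := path_dense a (φ + β) (φ - β) δ S hδ
  refine ⟨s, hs, hball ?_⟩
  rw [Metric.mem_ball, Prod.dist_eq, max_lt_iff]
  constructor
  · change dist ((1 + Real.cos s) / 2) t < δ
    rw [← ha, Real.dist_eq]
    have h4 : |Real.cos s - Real.cos a| ≤ ‖exp (s * I) - exp (a * I)‖ := by
      have := Complex.abs_re_le_norm (exp (s * I) - exp (a * I))
      rwa [Complex.sub_re, Complex.exp_ofReal_mul_I_re, Complex.exp_ofReal_mul_I_re] at this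
    rw [show (1 + Real.cos s) / 2 - (1 + Real.cos a) / 2 = (Real.cos s - Real.cos a) / 2 by ring,
      abs_div, abs_two]
    have := abs_nonneg (Real.cos s - Real.cos a)
    linarith
  · change dist ((exp ((s ^ 2 : ℝ) * I) + exp ((s ^ 4 : ℝ) * I)) / 2) w < δ
    rw [← hbc, dist_eq_norm]
    rw [show (exp ((s ^ 2 : ℝ) * I) + exp ((s ^ 4 : ℝ) * I)) / 2 -
      (exp ((φ + β : ℝ) * I) + exp ((φ - β : ℝ) * I)) / 2 =
      ((exp ((s ^ 2 : ℝ) * I) - exp ((φ + β : ℝ) * I)) +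
        (exp ((s ^ 4 : ℝ) * I) - exp ((φ - β : ℝ) * I))) / 2 by ring, norm_div, Complex.norm_two]
    have := norm_add_le (exp ((s ^ 2 : ℝ) * I) - exp ((φ + β : ℝ) * I))
      (exp ((s ^ 4 : ℝ) * I) - exp ((φ - β : ℝ) * I))
    linarith

end Pool.Agent.Helper914.Corona
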