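import Pool.Agent.Helper914.Corona.Bdry
import Pool.Agent.Helper914.Corona.Path

set_option autoImplicit false
open Filter Topology Complex MeasureTheory AddCircle
open scoped Real ComplexConjugate ENNReal BoundedContinuousFunction

namespace Pool.Agent.Helper914.Corona
open Pool.Agent.Helper914.Corona.Toep

/-- the circle without the point `0` (the point `1` of the unit circle) -/
abbrev YY : Type := {t : UnitAddCircle // t ≠ 0}

abbrev BY : Type := YY →ᵇ ℂ

/-- the filter of neighbourhoods of the missing point -/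
def L0 : Filter YY := comap Subtype.val (𝓝 (0 : UnitAddCircle))

noncomputable def extz (g : YY → ℂ) : UnitAddCircle → ℂ :=
  open Classical in fun t => if h : t ≠ 0 then g ⟨t, h⟩ else 0

lemma extz_coe (g : YY → ℂ) (y : YY) : extz g y = g y := by
  unfold extz
  rw [dif_pos y.2]

lemma isOpen_ne0 : IsOpen {t : UnitAddCircle | t ≠ 0} := isOpen_ne

lemma measurable_extz {g : YY → ℂ} (hg : Continuous g) : Measurable (extz g) := by
  classical
  have h1 : extz g = Function.extend Subtype.val g (fun _ => 0) := by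
    ext t
    unfold extz
    by_cases h : t ≠ 0
    · rw [dif_pos h]
      exact (Subtype.val_injective.extend_apply g (fun _ => (0 : ℂ)) ⟨t, h⟩).symm
    · rw [dif_neg h, Function.extend_apply']
      rintro ⟨a, rfl⟩
      exact h a.2
  rw [h1]
  exact (MeasurableEmbedding.subtype_coe isOpen_ne0.measurableSet).measurable_extend hg.measurable
    measurable_const

lemma norm_extz_le (g : BY) (t : UnitAddCircle) : ‖extz g t‖ ≤ ‖g‖ := by
  unfold extz
  split_ifs with h
  · exact g.norm_coe_le_norm _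
  · simp

lemma memLp_extz (g : BY) : MemLp (extz g) ⊤ mu :=
  memLp_top_of_bound (measurable_extz g.continuous).aestronglyMeasurable ‖g‖
    (Eventually.of_forall (norm_extz_le g))

/-- bounded continuous functions on the punctured circle, as elements of `L^∞` -/
noncomputable def ioF (g : BY) : Li := (memLp_extz g).toLp

lemma coeFn_ioF (g : BY) : ⇑(ioF g) =ᵐ[mu] extz g := MemLp.coeFn_toLp _

lemma coeFn_ioF' (g : BY) : ∀ᵐ t ∂mu, ∀ h : t ≠ 0, ioF g t = g ⟨t, h⟩ := by
  filter_upwards [coeFn_ioF g] with t ht h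
  rw [ht]; exact extz_coe g ⟨t, h⟩

/-- if two classes agree away from `0` they are equal -/
lemma Li_ext {u v : Li} (h : ∀ᵐ t ∂mu, t ≠ 0 → u t = v t) : u = v := by
  apply Lp.ext
  filter_upwards [h, ae_ne_zero] with t h1 h2
  exact h1 h2

noncomputable def io : BY →ₐ[ℂ] Li where
  toFun := ioF
  map_one' := by
    apply Li_ext
    filter_upwards [coeFn_ioF' 1, coeFn_one] with t h1 h2 h3
    rw [h1 h3, h2]; rfl
  map_mul' := fun a b => by
    apply Li_ext
    filter_upwards [coeFn_ioF' a, coeFn_ioF' b, coeFn_ioF' (a * b), coeFn_mul (ioF a) (ioF b)]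
      with t h1 h2 h3 h4 h5
    rw [h3 h5, h4, h1 h5, h2 h5]; rfl
  map_zero' := by
    apply Li_ext
    filter_upwards [coeFn_ioF' 0, Lp.coeFn_zero ℂ ⊤ mu] with t h1 h2 h3
    rw [h1 h3, h2]; rfl
  map_add' := fun a b => by
    apply Li_ext
    filter_upwards [coeFn_ioF' a, coeFn_ioF' b, coeFn_ioF' (a + b), coeFn_add (ioF a) (ioF b)]
      with t h1 h2 h3 h4 h5
    rw [h3 h5, h4, h1 h5, h2 h5]; rfl
  commutes' := fun c => by
    rw [Algebra.algebraMap_eq_smul_one, Algebra.algebraMap_eq_smul_one]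
    apply Li_ext
    filter_upwards [coeFn_ioF' (c • 1), coeFn_one, coeFn_smul c 1] with t h1 h2 h3 h4
    rw [h1 h4, h3, h2]; rfl

lemma coeFn_io (g : BY) : ∀ᵐ t ∂mu, ∀ h : t ≠ 0, io g t = g ⟨t, h⟩ := coeFn_ioF' g

/-- a closed condition that holds almost everywhere holds everywhere -/
lemma closed_ae {C : Set ℂ} (hC : IsClosed C) (g : BY) (h : ∀ᵐ t ∂mu, io g t ∈ C) (y : YY) :
    g y ∈ C := by
  by_contra hy
  have h1 : IsOpen (Subtype.val '' (g ⁻¹' Cᶜ) : Set UnitAddCircle) :=
    isOpen_ne0.isOpenEmbedding_subtypeVal.isOpenMap _ (hC.isOpen_compl.preimage g.continuous)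
  have h2 : mu (Subtype.val '' (g ⁻¹' Cᶜ) : Set UnitAddCircle) = 0 := by
    apply measure_mono_null _ (ae_iff.1 (h.and (coeFn_io g)))
    rintro t ⟨z, hz, rfl⟩
    simp only [Set.mem_setOf_eq, not_and]
    intro h3 h4
    rw [h4 z.2] at h3
    exact hz h3
  have h3 := h1.eq_empty_of_measure_zero h2
  have h4 : (y : UnitAddCircle) ∈ (Subtype.val '' (g ⁻¹' Cᶜ) : Set UnitAddCircle) := ⟨y, hy, rfl⟩
  rw [h3] at h4
  exact h4

lemma norm_io (g : BY) : ‖io g‖ = ‖g‖ := by
  apply le_antisymm
  · apply norm_le_of_ae (norm_nonneg _)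
    filter_upwards [coeFn_io g, ae_ne_zero] with t h1 h2
    rw [h1 h2]; exact g.norm_coe_le_norm _
  · rw [BoundedContinuousFunction.norm_le (norm_nonneg _)]
    intro y
    have := closed_ae (C := Metric.closedBall 0 ‖io g‖) Metric.isClosed_closedBall g (by
      filter_upwards [ae_norm_le (io g)] with t ht
      rwa [mem_closedBall_zero_iff]) y
    rwa [mem_closedBall_zero_iff] at this

lemma io_injective : Function.Injective io := by
  intro a b h
  have : ‖io (a - b)‖ = 0 := by rw [map_sub, h, sub_self, norm_zero]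
  rw [norm_io, norm_eq_zero, sub_eq_zero] at this
  exact this

lemma cj_io (g : BY) : cj (io g) = io (star g) := by
  apply Li_ext
  filter_upwards [coeFn_io g, coeFn_io (star g), coeFn_cj (io g)] with t h1 h2 h3 h4
  rw [h3, h1 h4, h2 h4]; rfl

/-- functions vanishing at the missing point -/
def c0 : Set BY := {g | Tendsto g L0 (𝓝 0)}

lemma mem_c0 {g : BY} : g ∈ c0 ↔ Tendsto g L0 (𝓝 0) := Iff.rfl

lemma c0_add {a b : BY} (ha : a ∈ c0) (hb : b ∈ c0) : a + b ∈ c0 := by
  have := Tendsto.add ha hb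
  rw [add_zero] at this
  exact this

lemma c0_neg {a : BY} (ha : a ∈ c0) : -a ∈ c0 := by
  have := Tendsto.neg ha
  rw [neg_zero] at this
  exact this

lemma c0_sub {a b : BY} (ha : a ∈ c0) (hb : b ∈ c0) : a - b ∈ c0 := by
  rw [sub_eq_add_neg]; exact c0_add ha (c0_neg hb)

lemma c0_mul (a : BY) {b : BY} (hb : b ∈ c0) : a * b ∈ c0 := by
  rw [mem_c0, tendsto_zero_iff_norm_tendsto_zero] at *
  have h2 := hb.const_mul ‖a‖
  rw [mul_zero] at h2
  apply squeeze_zero (fun _ => norm_nonneg _) _ h2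
  intro y
  rw [BoundedContinuousFunction.mul_apply, norm_mul]
  gcongr
  exact a.norm_coe_le_norm y

lemma c0_smul (c : ℂ) {b : BY} (hb : b ∈ c0) : c • b ∈ c0 := by
  have := Tendsto.const_smul hb c
  rw [smul_zero] at this
  exact this

lemma c0_star {a : BY} (ha : a ∈ c0) : star a ∈ c0 := by
  have := (continuous_star.tendsto (0 : ℂ)).comp ha
  rw [star_zero] at this
  exact this

lemma c0_zero : (0 : BY) ∈ c0 := tendsto_const_nhds

lemma isClosed_c0 : IsClosed c0 := by
  apply isClosed_of_closure_subset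
  intro g hg
  rw [mem_c0, Metric.tendsto_nhds]
  intro ε hε
  obtain ⟨h, hh, hd⟩ := Metric.mem_closure_iff.1 hg (ε / 2) (by linarith)
  have h1 := (Metric.tendsto_nhds.1 (mem_c0.1 hh)) (ε / 2) (by linarith)
  filter_upwards [h1] with y hy
  have h2 : dist (g y) (h y) ≤ dist g h := BoundedContinuousFunction.dist_coe_le_dist y
  have h3 := dist_triangle (g y) (h y) 0
  linarith

/-- extension of a function of `c0` to the circle -/
lemma exists_ext {g : BY} (hg : g ∈ c0) :
    ∃ c : C(UnitAddCircle, ℂ), c 0 = 0 ∧ ∀ y : YY, c y = g y := by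
  have h0 : extz g 0 = 0 := by unfold extz; rw [dif_neg (by simp)]
  refine ⟨⟨extz g, ?_⟩, h0, fun y => extz_coe g y⟩
  rw [continuous_iff_continuousAt]
  intro t
  by_cases ht : t = 0
  · subst ht
    rw [ContinuousAt, h0, Metric.tendsto_nhds]
    intro ε hε
    have h1 := (Metric.tendsto_nhds.1 (mem_c0.1 hg)) ε hε
    rw [L0, eventually_comap] at h1
    filter_upwards [h1] with a ha
    by_cases h2 : a ≠ 0
    · have := ha ⟨a, h2⟩ rfl
      rwa [← extz_coe g ⟨a, h2⟩] at this
    · push Not at h2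
      rw [h2, h0, dist_self]; exact hε
  · have h1 : ContinuousOn (extz g) {t | t ≠ 0} := by
      rw [continuousOn_iff_continuous_restrict]
      refine g.continuous.congr fun y => ?_
      exact (extz_coe g y).symm
    exact h1.continuousAt (isOpen_ne0.mem_nhds ht)

lemma io_eq_jj {g : BY} {c : C(UnitAddCircle, ℂ)} (h : ∀ y : YY, c y = g y) : io g = jj c := by
  apply Li_ext
  filter_upwards [coeFn_io g, coeFn_jj c] with t h1 h2 h3
  rw [h1 h3, h2, ← h ⟨t, h3⟩]

/-- restriction of a continuous function -/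
noncomputable def res (c : C(UnitAddCircle, ℂ)) : BY :=
  BoundedContinuousFunction.ofNormedAddCommGroup (fun y : YY => c y)
    (c.continuous.comp continuous_subtype_val) ‖c‖ (fun y => c.norm_coe_le_norm y)

lemma res_apply (c : C(UnitAddCircle, ℂ)) (y : YY) : res c y = c y := rfl

lemma jj_eq_io (c : C(UnitAddCircle, ℂ)) : jj c = io (res c) := (io_eq_jj fun _ => rfl).symm

lemma res_sub_const (c : C(UnitAddCircle, ℂ)) : res c - algebraMap ℂ BY (c 0) ∈ c0 := by
  rw [mem_c0]
  have h1 : Tendsto (fun y : YY => c y - c 0) L0 (𝓝 (c 0 - c 0)) := by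
    apply Tendsto.sub_const
    exact (c.continuous.tendsto 0).comp tendsto_comap
  rw [sub_self] at h1
  exact h1

/-- the slow variable on the circle -/
noncomputable def sT (y : YY) : ℝ := (vf (ee y)).re

lemma tendsto_ee : Tendsto (fun y : YY => ee y) L0 (𝓝[D1] 1) := by
  rw [tendsto_nhdsWithin_iff]
  constructor
  · rw [← ee_zero]
    exact (continuous_ee.tendsto 0).comp tendsto_comap
  · exact Eventually.of_forall fun y => ee_mem_D1 y.2

lemma continuous_sT : Continuous sT := by
  have h1 : Continuous fun y : YY => vf (ee y) :=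
    continuousOn_vf.comp_continuous (continuous_ee.comp continuous_subtype_val)
      (fun y => ee_mem_D1 y.2)
  exact Complex.continuous_re.comp h1

lemma tendsto_sT : Tendsto sT L0 atTop := tendsto_vf_re.comp tendsto_ee

noncomputable def qT : C(YY, KK) := ⟨fun y => qq (sT y), continuous_qq.comp continuous_sT⟩

noncomputable def sig : C(KK, ℂ) →ₐ[ℂ] BY where
  toFun F := (BoundedContinuousFunction.mkOfCompact F).compContinuous qT
  map_one' := rfl
  map_mul' _ _ := rfl
  map_zero' := rfl
  map_add' _ _ := rfl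
  commutes' _ := rfl

lemma sig_apply (F : C(KK, ℂ)) (y : YY) : sig F y = F (qT y) := rfl

lemma norm_sig_le (F : C(KK, ℂ)) : ‖sig F‖ ≤ ‖F‖ := by
  rw [BoundedContinuousFunction.norm_le (norm_nonneg _)]
  intro y
  exact F.norm_coe_le_norm _

lemma sig_star (F : C(KK, ℂ)) : sig (star F) = star (sig F) := rfl

lemma coe_ne_zero_of {t : ℝ} (h0 : 0 < t) (h1 : t < 1) : (t : UnitAddCircle) ≠ 0 := by
  intro h
  have h2 := ee_coe t
  rw [h, ee_zero] at h2
  have h3 : exp (2 * π * t * I) = 1 := h2.symm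
  rw [Complex.exp_eq_one_iff] at h3
  obtain ⟨n, hn⟩ := h3
  have h4 : (t : ℂ) = n := by
    have hπ : (2 * π * I : ℂ) ≠ 0 := Complex.two_pi_I_ne_zero
    have : (t : ℂ) * (2 * π * I) = n * (2 * π * I) := by rw [← hn]; ring
    exact mul_right_cancel₀ hπ this
  have h5 : t = (n : ℝ) := by exact_mod_cast h4
  rw [h5] at h0 h1
  have h6 : (0 : ℤ) < n := by exact_mod_cast h0
  have h7 : n < (1 : ℤ) := by exact_mod_cast h1
  omega

/-- the path comes arbitrarily close to every point of the fibre, near the missing point -/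
lemma cluster (κ : KK) {U : Set KK} (hU : U ∈ 𝓝 κ) {W : Set YY} (hW : W ∈ L0) :
    ∃ y ∈ W, qT y ∈ U := by
  rw [L0, mem_comap] at hW
  obtain ⟨O, hO, hOW⟩ := hW
  have h1 : Tendsto (fun t : ℝ => (t : UnitAddCircle)) (𝓝 0) (𝓝 0) := by
    have := (AddCircle.continuous_mk' (1 : ℝ)).tendsto 0
    simpa using this
  have h2 := h1.eventually hO
  obtain ⟨η, hη, hηO⟩ := Metric.eventually_nhds_iff.1 h2
  set η' := min (η / 2) (1 / 2) with hη'
  have hη'0 : 0 < η' := lt_min (by linarith) (by norm_num)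
  have hη'1 : η' < 1 := (min_le_right _ _).trans_lt (by norm_num)
  have hη'η : η' < η := (min_le_left _ _).trans_lt (by linarith)
  set φ : ℝ → ℝ := fun t => (vf (exp (2 * π * t * I))).re with hφ
  have hφc : ∀ t : ℝ, 0 < t → t < 1 → ContinuousAt φ t := by
    intro t h0 h1
    have h3 : (t : UnitAddCircle) ≠ 0 := coe_ne_zero_of h0 h1
    have h4 : ContinuousAt vf (exp (2 * π * t * I)) := by
      have hz := ee_mem_D1 h3
      rw [ee_coe] at hz
      apply ContinuousAt.clog
      · apply ContinuousAt.clog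
        · apply ContinuousAt.div continuousAt_const (by fun_prop) (one_sub_ne hz)
        · exact six_slit hz
      · exact Lf_slit hz
    have h5 : ContinuousAt (fun t : ℝ => exp (2 * π * t * I)) t := by fun_prop
    have h6 : ContinuousAt (fun t : ℝ => vf (exp (2 * π * t * I))) t :=
      ContinuousAt.comp (f := fun t : ℝ => exp (2 * π * t * I)) h4 h5
    exact Complex.continuous_re.continuousAt.comp h6
  obtain ⟨s, hs, hsU⟩ := qq_dense κ U hU (φ η')
  -- find a point with large value
  have h3 : Tendsto φ (𝓝[>] 0) atTop := by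
    apply tendsto_vf_re.comp
    rw [tendsto_nhdsWithin_iff]
    constructor
    · have h4 : Continuous fun t : ℝ => exp (2 * π * t * I) := by fun_prop
      have h5 := h4.tendsto 0
      simp only [ofReal_zero, mul_zero, zero_mul, Complex.exp_zero] at h5
      exact h5.mono_left nhdsWithin_le_nhds
    · have h4 : ∀ᶠ t : ℝ in 𝓝[>] 0, t < 1 :=
        mem_nhdsWithin_of_mem_nhds (Iio_mem_nhds one_pos)
      filter_upwards [self_mem_nhdsWithin, h4] with t ht ht1
      have := ee_mem_D1 (coe_ne_zero_of ht ht1)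
      rwa [ee_coe] at this
  have h4 : ∀ᶠ t : ℝ in 𝓝[>] 0, t < η' := mem_nhdsWithin_of_mem_nhds (Iio_mem_nhds hη'0)
  obtain ⟨t1, ⟨ht1, ht1'⟩, ht1''⟩ := ((h3.eventually_ge_atTop s).and h4).and self_mem_nhdsWithin
    |>.exists
  have ht10 : 0 < t1 := ht1''
  have h5 : ContinuousOn φ (Set.Icc t1 η') := fun t ht =>
    (hφc t (ht10.trans_le ht.1) (ht.2.trans_lt hη'1)).continuousWithinAt
  obtain ⟨t, ht, hts⟩ := intermediate_value_Icc' ht1'.le h5 ⟨hs, ht1⟩
  have ht0 : 0 < t := ht10.trans_le ht.1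
  have htne := coe_ne_zero_of ht0 (ht.2.trans_lt hη'1)
  refine ⟨⟨(t : UnitAddCircle), htne⟩, ?_, ?_⟩
  · apply hOW
    apply hηO
    rw [Real.dist_eq, sub_zero, abs_of_pos ht0]
    exact ht.2.trans_lt hη'η
  · change qq (sT ⟨(t : UnitAddCircle), htne⟩) ∈ U
    have : sT ⟨(t : UnitAddCircle), htne⟩ = s := by
      rw [← hts, hφ]
      simp only [sT]
      rw [ee_coe]
    rw [this]; exact hsU

instance : NeBot L0 := neBot_iff.2 fun h => by
  have h1 : (∅ : Set YY) ∈ L0 := by rw [h]; trivial
  obtain ⟨y, hy, -⟩ := cluster (0, ⟨0, by simp⟩) univ_mem h1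
  exact hy

end Pool.Agent.Helper914.Corona
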