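import Pool.Agent.Helper914.Corona.Algs
import Pool.Agent.Helper914.Corona.Coef

set_option autoImplicit false
open Filter Topology Complex MeasureTheory AddCircle
open scoped Real ComplexConjugate ENNReal BoundedContinuousFunction

namespace Pool.Agent.Helper914.Corona
open Pool.Agent.Helper914.Corona.Toep

/-- boundary function of `En k c` -/
noncomputable def bd (k : ℕ) (c : ℂ) (hc : c = I ∨ c = -I) : BY :=
  BoundedContinuousFunction.ofNormedAddCommGroup (fun y : YY => En k c (ee y))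
    ((continuousOn_En k c).comp_continuous (continuous_ee.comp continuous_subtype_val)
      (fun y => ee_mem_D1 y.2)) (bounded_En k hc).choose
    (fun y => (bounded_En k hc).choose_spec _ (ee_mem_D1 y.2))

lemma bd_apply (k : ℕ) (c : ℂ) (hc : c = I ∨ c = -I) (y : YY) : bd k c hc y = En k c (ee y) := rfl

lemma bd_mem (k : ℕ) (c : ℂ) (hc : c = I ∨ c = -I) : io (bd k c hc) ∈ Hi := by
  apply mem_Hi_of_analytic (differentiableOn_En k c) (continuousOn_En k c)
    (bounded_En k hc).choose_spec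
  filter_upwards [coeFn_io (bd k c hc), ae_ne_zero] with t h1 h2
  rw [h1 h2]; rfl

lemma bd_tendsto (k : ℕ) (c : ℂ) (hc : c = I ∨ c = -I) :
    Tendsto (fun y => bd k c hc y - exp (c * ((sT y ^ k : ℝ) : ℂ))) L0 (𝓝 0) :=
  (tendsto_En_sub k hc).comp tendsto_ee

/-- the coordinate functions of the fibre -/
noncomputable def Ft : C(KK, ℂ) := ⟨fun κ => ((κ.1 : ℝ) : ℂ), by fun_prop⟩
noncomputable def Fw : C(KK, ℂ) := ⟨fun κ => (κ.2 : ℂ), by fun_prop⟩

lemma Ft_apply (κ : KK) : Ft κ = ((κ.1 : ℝ) : ℂ) := rfl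
lemma Fw_apply (κ : KK) : Fw κ = (κ.2 : ℂ) := rfl

noncomputable def gt : BY := (1 / 4 : ℂ) • (2 + bd 1 I (Or.inl rfl) + bd 1 (-I) (Or.inr rfl))
noncomputable def gw : BY := (1 / 2 : ℂ) • (bd 2 I (Or.inl rfl) + bd 4 I (Or.inl rfl))
noncomputable def gwb : BY := (1 / 2 : ℂ) • (bd 2 (-I) (Or.inr rfl) + bd 4 (-I) (Or.inr rfl))

lemma gt_c0 : gt - sig Ft ∈ c0 := by
  rw [mem_c0]
  have h := (((bd_tendsto 1 I (Or.inl rfl)).add (bd_tendsto 1 (-I) (Or.inr rfl))).const_mul
    (1 / 4 : ℂ))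
  rw [add_zero, mul_zero] at h
  refine h.congr fun y => ?_
  have h1 : (gt - sig Ft) y = 1 / 4 * (2 + bd 1 I (Or.inl rfl) y + bd 1 (-I) (Or.inr rfl) y) -
      (((1 + Real.cos (sT y)) / 2 : ℝ) : ℂ) := rfl
  rw [h1, pow_one]
  push_cast
  rw [Complex.cos]
  have e1 : (I : ℂ) * (sT y : ℂ) = sT y * I := mul_comm _ _
  have e2 : -I * (sT y : ℂ) = -(sT y : ℂ) * I := by ring
  rw [e1, e2]
  ring

lemma gw_c0 : gw - sig Fw ∈ c0 := by
  rw [mem_c0]
  have h := (((bd_tendsto 2 I (Or.inl rfl)).add (bd_tendsto 4 I (Or.inl rfl))).const_mul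
    (1 / 2 : ℂ))
  rw [add_zero, mul_zero] at h
  refine h.congr fun y => ?_
  have h1 : (gw - sig Fw) y = 1 / 2 * (bd 2 I (Or.inl rfl) y + bd 4 I (Or.inl rfl) y) -
      (exp ((sT y ^ 2 : ℝ) * I) + exp ((sT y ^ 4 : ℝ) * I)) / 2 := rfl
  rw [h1, mul_comm I, mul_comm I]
  ring

lemma gwb_c0 : gwb - sig (star Fw) ∈ c0 := by
  rw [mem_c0]
  have h := (((bd_tendsto 2 (-I) (Or.inr rfl)).add (bd_tendsto 4 (-I) (Or.inr rfl))).const_mul
    (1 / 2 : ℂ))
  rw [add_zero, mul_zero] at h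
  refine h.congr fun y => ?_
  have h1 : (gwb - sig (star Fw)) y = 1 / 2 * (bd 2 (-I) (Or.inr rfl) y + bd 4 (-I) (Or.inr rfl) y) -
      conj ((exp ((sT y ^ 2 : ℝ) * I) + exp ((sT y ^ 4 : ℝ) * I)) / 2) := rfl
  have h2 : ∀ x : ℝ, conj (exp ((x : ℂ) * I)) = exp (-I * x) := by
    intro x
    rw [← Complex.exp_conj, map_mul, Complex.conj_ofReal, Complex.conj_I]
    ring_nf
  rw [h1, map_div₀, map_add, h2, h2]
  have h3 : conj (2 : ℂ) = 2 := Complex.conj_ofNat 2
  rw [h3]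
  ring

noncomputable def ft : Li := io gt
noncomputable def fw : Li := io gw
noncomputable def fwb : Li := io gwb

lemma ft_Hi : ft ∈ Hi := by
  unfold ft gt
  rw [map_smul, map_add, map_add]
  have h2 : io (2 : BY) = (2 : ℂ) • (1 : Li) := by
    rw [← map_one io, ← map_smul]
    congr 1
    ext y
    simp
  rw [h2]
  exact Hi.smul_mem _ (Hi.add_mem (Hi.add_mem (Hi.smul_mem _ one_mem_Hi) (bd_mem _ _ _))
    (bd_mem _ _ _))

lemma fw_Hi : fw ∈ Hi := by
  unfold fw gw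
  rw [map_smul, map_add]
  exact Hi.smul_mem _ (Hi.add_mem (bd_mem _ _ _) (bd_mem _ _ _))

lemma fwb_Hi : fwb ∈ Hi := by
  unfold fwb gwb
  rw [map_smul, map_add]
  exact Hi.smul_mem _ (Hi.add_mem (bd_mem _ _ _) (bd_mem _ _ _))

lemma ft_Rep : Rep ft Ft := ⟨gt, rfl, gt_c0⟩
lemma fw_Rep : Rep fw Fw := ⟨gw, rfl, gw_c0⟩
lemma fwb_Rep : Rep fwb (star Fw) := ⟨gwb, rfl, gwb_c0⟩

lemma Ft_zero (w : Metric.closedBall (0 : ℂ) 1) : Ft (0, w) = 0 := by
  rw [Ft_apply]; simp

lemma Ft_mem : Ft ∈ TT := mem_TT_of_zero Ft_zero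

lemma slice_Fw {w : ℂ} (hw : w ∈ Metric.ball (0 : ℂ) 1) : slice Fw w = w := by
  rw [slice, Fw_apply, rho_of_le (mem_ball_zero_iff.1 hw).le]

lemma Fw_mem : Fw ∈ TT := by
  rw [mem_TT]
  exact differentiableOn_id.congr fun w hw => slice_Fw hw

lemma ft_mem : ft ∈ XX := ⟨ft_Hi, _, Ft_mem, ft_Rep⟩
lemma fw_mem : fw ∈ XX := ⟨fw_Hi, _, Fw_mem, fw_Rep⟩

lemma not_diff_conj : ¬ DifferentiableAt ℂ (fun w : ℂ => conj w) 0 := by
  intro h
  have h4 : HasDerivAt (fun w : ℂ => conj w) (deriv (fun w : ℂ => conj w) 0) 0 := h.hasDerivAt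
  set d := deriv (fun w : ℂ => conj w) 0
  have h4' : HasDerivAt (fun w : ℂ => conj w) d ((0 : ℝ) : ℂ) := by rwa [Complex.ofReal_zero]
  have h5 : HasDerivAt (fun x : ℝ => conj (x : ℂ)) d 0 := h4'.comp_ofReal
  have h6 : HasDerivAt (fun x : ℝ => conj (x : ℂ)) 1 0 := by
    have h7 : HasDerivAt (fun x : ℝ => (x : ℂ)) 1 0 := (hasDerivAt_id (0 : ℝ)).ofReal_comp
    refine h7.congr_of_eventuallyEq (Eventually.of_forall fun x => ?_)
    exact Complex.conj_ofReal x
  have hd : d = 1 := h5.unique h6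
  have h8 : HasDerivAt (fun z : ℂ => conj (I * z)) (d * I) 0 := by
    have h9 : HasDerivAt (fun z : ℂ => I * z) I 0 := by
      simpa using (hasDerivAt_id (0 : ℂ)).const_mul I
    have h10 : HasDerivAt (fun w : ℂ => conj w) d (I * 0) := by rwa [mul_zero]
    exact HasDerivAt.comp (0 : ℂ) h10 h9
  have h11 : HasDerivAt (fun z : ℂ => conj (I * z)) (-I * d) 0 := by
    have h12 := h4.const_mul (-I)
    refine h12.congr_of_eventuallyEq (Eventually.of_forall fun z => ?_)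
    simp only [map_mul, Complex.conj_I]
  have h13 := h8.unique h11
  rw [hd] at h13
  have h14 : (2 : ℂ) * I = 0 := by linear_combination h13
  simp at h14

lemma star_Fw_not_mem : star Fw ∉ TT := by
  intro h
  rw [mem_TT] at h
  have h1 : Set.EqOn (slice (star Fw)) (fun w => conj w) (Metric.ball 0 1) := by
    intro w hw
    have : slice (star Fw) w = conj (slice Fw w) := rfl
    rw [this, slice_Fw hw]
  have h2 : DifferentiableOn ℂ (fun w : ℂ => conj w) (Metric.ball 0 1) := h.congr fun w hw =>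
    (h1 hw).symm
  have h3 : DifferentiableAt ℂ (fun w : ℂ => conj w) 0 :=
    h2.differentiableAt (Metric.ball_mem_nhds 0 one_pos)
  exact not_diff_conj h3

lemma fwb_not_mem : fwb ∉ XX := by
  rintro ⟨-, F, hF, hF'⟩
  rw [hF'.unique fwb_Rep] at hF
  exact star_Fw_not_mem hF

/-- the algebra generated by `H^∞` and the negative powers of `z` -/
noncomputable def SS : Subalgebra ℂ Li where
  carrier := {u | ∃ n : ℕ, ex n * u ∈ Hi}
  mul_mem' := by
    rintro a b ⟨n, hn⟩ ⟨m, hm⟩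
    refine ⟨n + m, ?_⟩
    have : ex ((n + m : ℕ) : ℤ) * (a * b) = (ex n * a) * (ex m * b) := by
      push_cast
      rw [← ex_mul]; ring
    rw [this]; exact mul_mem_Hi hn hm
  add_mem' := by
    rintro a b ⟨n, hn⟩ ⟨m, hm⟩
    refine ⟨n + m, ?_⟩
    have : ex ((n + m : ℕ) : ℤ) * (a + b) = ex m * (ex n * a) + ex n * (ex m * b) := by
      push_cast
      rw [← ex_mul]; ring
    rw [this]
    exact Hi.add_mem (mul_mem_Hi (ex_mem_Hi (by omega)) hn) (mul_mem_Hi (ex_mem_Hi (by omega)) hm)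
  algebraMap_mem' := fun c => ⟨0, by
    rw [Algebra.algebraMap_eq_smul_one, mul_smul_comm, mul_one]
    exact Hi.smul_mem _ (ex_mem_Hi (by simp))⟩

/-- the Douglas algebra `H^∞ + C` -/
noncomputable def DD : Subalgebra ℂ Li := SS.topologicalClosure

lemma isClosed_DD : IsClosed (DD : Set Li) := SS.isClosed_topologicalClosure

lemma SS_le_DD : SS ≤ DD := SS.le_topologicalClosure

lemma Hi_sub_DD {u : Li} (hu : u ∈ Hi) : u ∈ DD := by
  apply SS_le_DD
  refine ⟨0, ?_⟩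
  have : ex ((0 : ℕ) : ℤ) = 1 := ex_zero
  rw [this, one_mul]
  exact hu

lemma ex_mem_DD (k : ℤ) : ex k ∈ DD := by
  apply SS_le_DD
  refine ⟨k.natAbs, ?_⟩
  rw [ex_mul]
  apply ex_mem_Hi
  omega

/-- closed subspaces containing all exponentials contain all continuous functions -/
lemma jj_mem_of_ex {V : Submodule ℂ Li} (hV : IsClosed (V : Set Li)) (h : ∀ k : ℤ, ex k ∈ V)
    (c : C(UnitAddCircle, ℂ)) : jj c ∈ V := by
  have h1 : (Submodule.span ℂ (Set.range (fourier (T := 1)))).topologicalClosure ≤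
      V.comap (jj : C(UnitAddCircle, ℂ) →ₗ[ℂ] Li) := by
    apply Submodule.topologicalClosure_minimal
    · rw [Submodule.span_le]
      rintro _ ⟨k, rfl⟩
      exact h k
    · exact hV.preimage jj.continuous
  rw [span_fourier_closure_eq_top] at h1
  exact h1 Submodule.mem_top

lemma jj_mem_DD (c : C(UnitAddCircle, ℂ)) : jj c ∈ DD :=
  jj_mem_of_ex (V := Subalgebra.toSubmodule DD) isClosed_DD ex_mem_DD c

/-- Stone-Weierstrass in the fibre -/
lemma sw {A : Subalgebra ℂ C(KK, ℂ)} (hA : IsClosed (A : Set C(KK, ℂ))) (ht : Ft ∈ A)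
    (hw : Fw ∈ A) (hwb : star Fw ∈ A) : A = ⊤ := by
  let B : StarSubalgebra ℂ C(KK, ℂ) :=
    { carrier := {F | F ∈ A ∧ star F ∈ A}
      mul_mem' := by
        rintro a b ⟨h1, h2⟩ ⟨h3, h4⟩
        exact ⟨A.mul_mem h1 h3, by rw [star_mul]; exact A.mul_mem h4 h2⟩
      add_mem' := by
        rintro a b ⟨h1, h2⟩ ⟨h3, h4⟩
        exact ⟨A.add_mem h1 h3, by rw [star_add]; exact A.add_mem h2 h4⟩
      algebraMap_mem' := fun c => ⟨A.algebraMap_mem c, by
        rw [← algebraMap_star_comm]; exact A.algebraMap_mem _⟩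
      star_mem' := by
        rintro a ⟨h1, h2⟩
        exact ⟨h2, by rw [star_star]; exact h1⟩ }
  have hsep : B.SeparatesPoints := by
    intro x y hxy
    by_cases h : x.1 = y.1
    · have h2 : x.2 ≠ y.2 := fun h2 => hxy (Prod.ext h h2)
      refine ⟨Fw, ⟨Fw, ⟨hw, hwb⟩, rfl⟩, ?_⟩
      rw [Fw_apply, Fw_apply]
      exact fun h3 => h2 (Subtype.ext h3)
    · refine ⟨Ft, ⟨Ft, ⟨ht, ?_⟩, rfl⟩, ?_⟩
      · have : star Ft = Ft := by
          ext κ
          exact Complex.conj_ofReal _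
        rw [this]; exact ht
      · rw [Ft_apply, Ft_apply]
        intro h3
        apply h
        apply Subtype.ext
        exact_mod_cast h3
  have h1 := ContinuousMap.starSubalgebra_topologicalClosure_eq_top_of_separatesPoints B hsep
  rw [eq_top_iff]
  intro F _
  have h2 : F ∈ (B.topologicalClosure : Set C(KK, ℂ)) := by rw [h1]; trivial
  rw [StarSubalgebra.topologicalClosure_coe] at h2
  exact (closure_minimal (fun G (hG : G ∈ B) => hG.1) hA) h2

lemma io_c0_eq {g : BY} (hg : g ∈ c0) : ∃ c : C(UnitAddCircle, ℂ), io g = jj c := by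
  obtain ⟨c, -, hc⟩ := exists_ext hg
  exact ⟨c, io_eq_jj hc⟩

lemma io_c0_mem_DD {g : BY} (hg : g ∈ c0) : io g ∈ DD := by
  obtain ⟨c, hc⟩ := io_c0_eq hg
  rw [hc]; exact jj_mem_DD c

lemma sig_mem_DD_of {u : Li} {F : C(KK, ℂ)} (hu : u ∈ DD) (h : Rep u F) : io (sig F) ∈ DD := by
  obtain ⟨g, rfl, hg⟩ := h
  have : io (sig F) = io g - io (g - sig F) := by rw [map_sub]; ring
  rw [this]
  exact DD.sub_mem hu (io_c0_mem_DD hg)

lemma continuous_io : Continuous io := by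
  have : Isometry io := AddMonoidHomClass.isometry_of_norm io norm_io
  exact this.continuous

lemma continuous_sig : Continuous sig := by
  apply AddMonoidHomClass.continuous_of_bound sig 1
  intro F
  rw [one_mul]; exact norm_sig_le F

lemma sig_mem_DD (F : C(KK, ℂ)) : io (sig F) ∈ DD := by
  have h1 : (DD.comap io).comap sig = ⊤ := by
    apply sw
    · exact isClosed_DD.preimage (continuous_io.comp continuous_sig)
    · exact sig_mem_DD_of (Hi_sub_DD ft_Hi) ft_Rep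
    · exact sig_mem_DD_of (Hi_sub_DD fw_Hi) fw_Rep
    · exact sig_mem_DD_of (Hi_sub_DD fwb_Hi) fwb_Rep
  have h2 : F ∈ (DD.comap io).comap sig := by rw [h1]; trivial
  exact h2

lemma cj_mem_DD {f : Li} (hf : f ∈ XX) : cj f ∈ DD := by
  obtain ⟨-, F, -, hF⟩ := hf
  obtain ⟨g, hg, hgF⟩ := hF.cj
  rw [hg]
  have : io g = io (sig (star F)) + io (g - sig (star F)) := by rw [map_sub]; ring
  rw [this]
  exact DD.add_mem (sig_mem_DD _) (io_c0_mem_DD hgF)

/-- inner functions invertible in `DD` are continuous -/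
lemma inner_DD {u v : Li} (hu : u ∈ Hi) (hin : cj u * u = 1) (hv : v ∈ DD) (huv : u * v = 1) :
    ∃ c : C(UnitAddCircle, ℂ), u = jj c := by
  have h1 : v ∈ closure (SS : Set Li) := by
    have := hv
    rwa [DD, ← SetLike.mem_coe, Subalgebra.topologicalClosure_coe] at this
  obtain ⟨w, ⟨n, hn⟩, hd⟩ := Metric.mem_closure_iff.1 h1 (1 / 2) (by norm_num)
  apply inner_continuous hu hin hn
  have h2 : ex n - u * (ex n * w) = (ex n * u) * (v - w) := by
    have : (ex n * u) * (v - w) = ex n * (u * v) - u * (ex n * w) := by ring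
    rw [this, huv, mul_one]
  rw [h2]
  have h3 : ‖u‖ ≤ 1 := by
    apply norm_le_of_ae zero_le_one
    filter_upwards [coeFn_mul (cj u) u, coeFn_cj u, coeFn_one] with t a b c
    rw [hin, c, b, ← Complex.normSq_eq_conj_mul_self, Complex.normSq_eq_norm_sq] at a
    have h4 : ‖u t‖ ^ 2 = 1 := by exact_mod_cast a.symm
    nlinarith [norm_nonneg (u t)]
  calc ‖ex n * u * (v - w)‖ ≤ ‖ex n * u‖ * ‖v - w‖ := norm_mul_le _ _
    _ ≤ (‖ex n‖ * ‖u‖) * ‖v - w‖ := by gcongr; exact norm_mul_le _ _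
    _ ≤ (1 * 1) * (1 / 2) := by
        gcongr
        · exact norm_ex _
        · rw [← dist_eq_norm]; exact hd.le
    _ = 1 / 2 := by norm_num

end Pool.Agent.Helper914.Corona
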