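import Pool.Agent.Helper914.Corona.Gens

set_option autoImplicit false
open Filter Topology Complex MeasureTheory AddCircle
open scoped Real ComplexConjugate ENNReal BoundedContinuousFunction NNReal

namespace Pool.Agent.Helper914.Corona
open Pool.Agent.Helper914.Corona.Toep

/-! ### peak functions -/

/-- the peak function at `a` -/
noncomputable def pkc (a : UnitAddCircle) : C(UnitAddCircle, ℂ) :=
  (1 / 2 : ℂ) • (1 + conj (ee a) • (fourier 1 : C(UnitAddCircle, ℂ)))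

lemma pkc_apply (a t : UnitAddCircle) : pkc a t = 1 / 2 * (1 + conj (ee a) * ee t) := rfl

lemma conj_ee_mul (a : UnitAddCircle) : conj (ee a) * ee a = 1 := by
  rw [← Complex.normSq_eq_conj_mul_self, Complex.normSq_eq_norm_sq, norm_ee]
  simp

lemma pkc_self (a : UnitAddCircle) : pkc a a = 1 := by
  rw [pkc_apply, conj_ee_mul]; norm_num

lemma norm_pkc_le (a t : UnitAddCircle) : ‖pkc a t‖ ≤ 1 := by
  rw [pkc_apply, norm_mul]
  have h1 := norm_add_le (1 : ℂ) (conj (ee a) * ee t)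
  rw [norm_one, norm_mul, RCLike.norm_conj, norm_ee, norm_ee] at h1
  have h2 : ‖(1 / 2 : ℂ)‖ = 1 / 2 := by norm_num
  rw [h2]; linarith

lemma norm_pkc_lt {a t : UnitAddCircle} (h : t ≠ a) : ‖pkc a t‖ < 1 := by
  rcases (norm_pkc_le a t).lt_or_eq with h1 | h1
  · exact h1
  · exfalso
    apply h
    apply ee_injective
    rw [pkc_apply, norm_mul] at h1
    have h2 : ‖(1 / 2 : ℂ)‖ = 1 / 2 := by norm_num
    rw [h2] at h1
    set u := conj (ee a) * ee t with hu
    have hu1 : ‖u‖ = 1 := by rw [hu, norm_mul, RCLike.norm_conj, norm_ee, norm_ee, one_mul]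
    have h3 : ‖1 + u‖ = 2 := by linarith
    have h4 : SameRay ℝ (1 : ℂ) u := by
      rw [sameRay_iff_norm_add, h3, hu1, norm_one]; norm_num
    have h5 : u = 1 := by
      have := h4.eq_of_norm_eq (by rw [hu1, norm_one])
      exact this.symm
    calc ee t = (conj (ee a) * ee a) * ee t := by rw [conj_ee_mul, one_mul]
      _ = ee a * u := by rw [hu]; ring
      _ = ee a := by rw [h5, mul_one]

lemma pkc_unif (a : UnitAddCircle) {O : Set UnitAddCircle} (hO : O ∈ 𝓝 a) :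
    ∃ r : ℝ, 0 ≤ r ∧ r < 1 ∧ ∀ t ∉ O, ‖pkc a t‖ ≤ r := by
  have hc : IsCompact (interior O)ᶜ := isOpen_interior.isClosed_compl.isCompact
  rcases (interior O)ᶜ.eq_empty_or_nonempty with h | h
  · refine ⟨0, le_rfl, one_pos, fun t ht => ?_⟩
    exfalso
    have : t ∈ (interior O)ᶜ := fun h2 => ht (interior_subset h2)
    rw [h] at this; exact this
  · obtain ⟨t0, ht0, hmax⟩ := hc.exists_isMaxOn h
      ((pkc a).continuous.norm.continuousOn (s := (interior O)ᶜ))
    refine ⟨‖pkc a t0‖, norm_nonneg _, ?_, fun t ht => hmax (fun h2 => ht (interior_subset h2))⟩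
    apply norm_pkc_lt
    rintro rfl
    exact ht0 (mem_interior_iff_mem_nhds.2 hO)

noncomputable def pk (a : UnitAddCircle) : Li := jj (pkc a)

lemma pk_eq (a : UnitAddCircle) : pk a = (1 / 2 : ℂ) • (1 + conj (ee a) • ex 1) := by
  rw [pk, pkc, map_smul, map_add, map_smul, jj_one]; rfl

lemma pk_Hi (a : UnitAddCircle) : pk a ∈ Hi := by
  rw [pk_eq]
  exact Hi.smul_mem _ (Hi.add_mem one_mem_Hi (Hi.smul_mem _ (ex_mem_Hi (by norm_num))))

lemma pk_mem (a : UnitAddCircle) : pk a ∈ XX := jj_mem_XX (pk_Hi a)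

lemma ex1_mem : ex 1 ∈ XX := jj_mem_XX (ex_mem_Hi (by norm_num))

lemma norm_pk_le (a : UnitAddCircle) : ‖pk a‖ ≤ 1 := by
  refine (norm_jj_le _).trans ?_
  rw [ContinuousMap.norm_le _ zero_le_one]
  exact norm_pkc_le a

/-- multiplication by high powers of the peak function localises -/
lemma peak_small (a : UnitAddCircle) (g : BY) {C : ℝ} (hC : 0 ≤ C)
    (hg : ∀ᶠ y in comap (Subtype.val : YY → UnitAddCircle) (𝓝 a), ‖g y‖ ≤ C) {ε : ℝ}
    (hε : 0 < ε) : ∃ N : ℕ, ‖io g * pk a ^ N‖ ≤ C + ε := by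
  rw [eventually_comap] at hg
  obtain ⟨r, hr0, hr1, hr⟩ := pkc_unif a hg
  obtain ⟨N, hN⟩ : ∃ N : ℕ, ‖g‖ * r ^ N ≤ ε := by
    have h1 : Tendsto (fun N : ℕ => ‖g‖ * r ^ N) atTop (𝓝 0) := by
      have := (tendsto_pow_atTop_nhds_zero_of_lt_one hr0 hr1).const_mul ‖g‖
      rwa [mul_zero] at this
    exact (h1.eventually_le_const hε).exists
  refine ⟨N, ?_⟩
  have h2 : io g * pk a ^ N = io (g * res (pkc a) ^ N) := by
    rw [map_mul, map_pow, pk, jj_eq_io]
  rw [h2, norm_io, BoundedContinuousFunction.norm_le (by linarith)]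
  intro y
  have h3 : (g * res (pkc a) ^ N) y = g y * (pkc a y) ^ N := by
    simp [res_apply]
  rw [h3, norm_mul, norm_pow]
  by_cases hy : (y : UnitAddCircle) ∈ {b | ∀ a : YY, (a : UnitAddCircle) = b → ‖g a‖ ≤ C}
  · have h4 : ‖g y‖ ≤ C := hy y rfl
    have h5 : ‖pkc a y‖ ^ N ≤ 1 := pow_le_one₀ (norm_nonneg _) (norm_pkc_le _ _)
    calc ‖g y‖ * ‖pkc a y‖ ^ N ≤ C * 1 := by gcongr
      _ ≤ C + ε := by linarith
  · have h4 := hr _ hy
    calc ‖g y‖ * ‖pkc a y‖ ^ N ≤ ‖g‖ * r ^ N := by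
          gcongr
          exact g.norm_coe_le_norm y
      _ ≤ C + ε := by linarith

/-! ### the fibre homomorphism -/

noncomputable def phiF (f : XX) : C(KK, ℂ) := (mem_XX.1 f.2).2.choose

lemma phiF_mem (f : XX) : phiF f ∈ TT := (mem_XX.1 f.2).2.choose_spec.1
lemma phiF_Rep (f : XX) : Rep (f : Li) (phiF f) := (mem_XX.1 f.2).2.choose_spec.2

lemma phiF_eq {f : XX} {F : C(KK, ℂ)} (h : Rep (f : Li) F) : phiF f = F := (phiF_Rep f).unique h

noncomputable def phi : XX →ₐ[ℂ] C(KK, ℂ) where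
  toFun := phiF
  map_one' := phiF_eq Rep.one
  map_mul' a b := phiF_eq ((phiF_Rep a).mul (phiF_Rep b))
  map_zero' := phiF_eq (by
    have := Rep.const 0
    rw [map_zero, map_zero] at this
    exact this)
  map_add' a b := phiF_eq ((phiF_Rep a).add (phiF_Rep b))
  commutes' c := phiF_eq (Rep.const c)

lemma phi_mem (f : XX) : phi f ∈ TT := phiF_mem f
lemma phi_Rep (f : XX) : Rep (f : Li) (phi f) := phiF_Rep f
lemma phi_eq {f : XX} {F : C(KK, ℂ)} (h : Rep (f : Li) F) : phi f = F := phiF_eq h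

lemma norm_phi_le (f : XX) : ‖phi f‖ ≤ ‖f‖ := (phi_Rep f).norm_le

noncomputable def pkX (a : UnitAddCircle) : XX := ⟨pk a, pk_mem a⟩

lemma phi_pkX : phi (pkX 0) = 1 := by
  apply phi_eq
  have h := Rep.jj (pkc 0)
  rw [pkc_self, map_one] at h
  exact h

/-- localisation at the fibre -/
lemma localise (f : XX) {ε : ℝ} (hε : 0 < ε) : ∃ N : ℕ, ‖f * pkX 0 ^ N‖ ≤ ‖phi f‖ + ε := by
  obtain ⟨g, hg, hgF⟩ := phi_Rep f
  have h1 : ∀ᶠ y in comap (Subtype.val : YY → UnitAddCircle) (𝓝 0), ‖g y‖ ≤ ‖phi f‖ + ε / 2 := by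
    have h2 := (Metric.tendsto_nhds.1 (mem_c0.1 hgF)) (ε / 2) (by linarith)
    rw [L0] at h2
    filter_upwards [h2] with y hy
    rw [dist_zero_right] at hy
    have h3 : g y = (g - sig (phi f)) y + sig (phi f) y := by
      simp
    rw [h3]
    refine (norm_add_le _ _).trans ?_
    have h4 : ‖sig (phi f) y‖ ≤ ‖phi f‖ := (phi f).norm_coe_le_norm _
    linarith
  obtain ⟨N, hN⟩ := peak_small 0 g (by positivity) h1 (ε := ε / 2) (by linarith)
  refine ⟨N, ?_⟩
  have h5 : ‖f * pkX 0 ^ N‖ = ‖io g * pk 0 ^ N‖ := by rw [← hg]; rfl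
  rw [h5]; linarith

instance : CompleteSpace XX := isClosed_XX.completeSpace_coe

noncomputable def phiN : NormedAddGroupHom XX C(KK, ℂ) where
  toFun := phi
  map_add' := map_add phi
  bound' := ⟨1, fun f => by rw [one_mul]; exact norm_phi_le f⟩

lemma phiN_surj : phiN.SurjectiveOnWith phi.range.toSubring.toAddSubgroup 2 := by
  rintro h ⟨f, hf⟩
  by_cases h0 : h = 0
  · refine ⟨0, ?_, ?_⟩
    · rw [h0]; exact map_zero phi
    · rw [h0]; simp
  · have hpos : 0 < ‖h‖ := norm_pos_iff.2 h0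
    obtain ⟨N, hN⟩ := localise f hpos
    refine ⟨f * pkX 0 ^ N, ?_, ?_⟩
    · change phi (f * pkX 0 ^ N) = h
      rw [map_mul, map_pow, phi_pkX, one_pow, mul_one]; exact hf
    · have : phi f = h := hf
      rw [this] at hN
      linarith

lemma isClosed_range : IsClosed (phi.range : Set C(KK, ℂ)) := by
  have h := controlled_closure_of_complete (f := phiN) (by norm_num : (0 : ℝ) < 2) one_pos phiN_surj
  apply isClosed_of_closure_subset
  intro F hF
  obtain ⟨g, hg, -⟩ := h F hF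
  exact ⟨g, hg⟩

end Pool.Agent.Helper914.Corona
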