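import Pool.Agent.Helper914.Corona.Char

set_option autoImplicit false
open Filter Topology Complex MeasureTheory AddCircle
open scoped Real ComplexConjugate ENNReal BoundedContinuousFunction NNReal

namespace Pool.Agent.Helper914.Corona
open Pool.Agent.Helper914.Corona.Toep

abbrev MX : Type := WeakDual.characterSpace ℂ XX

noncomputable def toA (m : MX) : XX →ₐ[ℂ] ℂ := WeakDual.CharacterSpace.equivAlgHom m

lemma toA_apply (m : MX) (f : XX) : toA m f = m f := rfl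

noncomputable def ofA (m : XX →ₐ[ℂ] ℂ) : MX := WeakDual.CharacterSpace.equivAlgHom.symm m

lemma ofA_apply (m : XX →ₐ[ℂ] ℂ) (f : XX) : ofA m f = m f := rfl

lemma ofA_toA (m : MX) : ofA (toA m) = m := WeakDual.CharacterSpace.equivAlgHom.symm_apply_apply m

lemma cont_eval (f : XX) : Continuous fun m : MX => m f :=
  (WeakDual.eval_continuous f).comp continuous_subtype_val

lemma continuous_evK : Continuous fun κ : KK => ofA (evK κ) := by
  apply Continuous.subtype_mk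
  apply WeakDual.continuous_of_continuous_eval
  intro f
  exact (phi f).continuous

/-- the set of characters that are unimodular on all inner functions -/
def EE : Set MX := {m | ∀ (I : Li) (hI : I ∈ XX), (∀ᵐ t ∂mu, ‖I t‖ = 1) → ‖m ⟨I, hI⟩‖ = 1}

lemma ae_ex1 : ∀ᵐ t ∂mu, ‖ex 1 t‖ = 1 := by
  filter_upwards [coeFn_ex 1] with t ht
  rw [ht]; exact norm_ee t

lemma exists_ee {w : ℂ} (hw : ‖w‖ = 1) : ∃ t : UnitAddCircle, w = ee t := by
  obtain ⟨t, ht⟩ := (AddCircle.homeomorphCircle (T := (1 : ℝ)) one_ne_zero).surjective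
    ⟨w, mem_sphere_zero_iff_norm.2 hw⟩
  refine ⟨t, ?_⟩
  rw [ee, fourier_one]
  rw [AddCircle.homeomorphCircle_apply] at ht
  have := congrArg (fun z : Circle => (z : ℂ)) ht
  exact this.symm

lemma char_cases {m : MX} (h : ‖m zX‖ = 1) :
    (∃ y : YY, m = ofA (evY y)) ∨ ∃ κ : KK, m = ofA (evK κ) := by
  obtain ⟨t, ht⟩ := exists_ee h
  by_cases h0 : t = 0
  · right
    rw [h0, ee_zero] at ht
    obtain ⟨κ, hκ⟩ := char_K (m := toA m) ht
    exact ⟨κ, by rw [← hκ, ofA_toA]⟩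
  · left
    refine ⟨⟨t, h0⟩, ?_⟩
    have := char_Y (m := toA m) (y := ⟨t, h0⟩) ht
    rw [← this, ofA_toA]

lemma gX_unimod {f : XX} (h : ∀ᵐ t ∂mu, ‖(f : Li) t‖ = 1) (y : YY) : ‖gX f y‖ = 1 := by
  have h1 := closed_ae (C := Metric.sphere 0 1) Metric.isClosed_sphere (gX f) (by
    rw [gX_spec]
    filter_upwards [h] with t ht
    rwa [mem_sphere_zero_iff_norm]) y
  rwa [mem_sphere_zero_iff_norm] at h1

lemma evY_mem_EE (y : YY) : ofA (evY y) ∈ EE := by
  intro I hI h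
  change ‖gX ⟨I, hI⟩ y‖ = 1
  exact gX_unimod (f := ⟨I, hI⟩) h y

lemma evK_mem_EE (κ : KK) : ofA (evK κ) ∈ EE := by
  intro I hI h
  change ‖phi ⟨I, hI⟩ κ‖ = 1
  have h1 := transfer (gX_c0 ⟨I, hI⟩) (C := Metric.sphere 0 1) Metric.isClosed_sphere
    (Eventually.of_forall fun y => by
      rw [mem_sphere_zero_iff_norm]; exact gX_unimod (f := ⟨I, hI⟩) h y) κ
  rwa [mem_sphere_zero_iff_norm] at h1

lemma zX_of_mem_EE {m : MX} (h : m ∈ EE) : ‖m zX‖ = 1 := h (ex 1) ex1_mem ae_ex1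

lemma isClosed_EE : IsClosed EE := by
  have : EE = ⋂ (I : Li) (hI : I ∈ XX) (_ : ∀ᵐ t ∂mu, ‖I t‖ = 1), {m : MX | ‖m ⟨I, hI⟩‖ = 1} := by
    ext m
    simp [EE]
  rw [this]
  refine isClosed_iInter fun I => isClosed_iInter fun hI => isClosed_iInter fun _ => ?_
  exact isClosed_eq (cont_eval _).norm continuous_const

/-- `EE` is a boundary -/
lemma EE_boundary (f : XX) : ∃ m ∈ EE, ∀ m' : MX, ‖m' f‖ ≤ ‖m f‖ := by
  have hy : Nonempty YY := (inferInstance : NeBot L0).nonempty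
  obtain ⟨y0⟩ := hy
  obtain ⟨m, hm, hmax⟩ := isClosed_EE.isCompact.exists_isMaxOn ⟨_, evY_mem_EE y0⟩
    (f := fun m : MX => ‖m f‖) (cont_eval f).norm.continuousOn
  refine ⟨m, hm, fun m' => ?_⟩
  have h1 : ‖m' f‖ ≤ ‖f‖ := char_le (toA m') f
  have h2 : ‖f‖ ≤ ‖m f‖ := by
    rw [← norm_gX, BoundedContinuousFunction.norm_le (norm_nonneg _)]
    intro y
    exact hmax (evY_mem_EE y)
  exact h1.trans h2

lemma one_of_peak {u : ℂ} (hu : ‖u‖ ≤ 1) (h : 1 ≤ ‖1 / 2 * (1 + u)‖) : u = 1 := by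
  rw [norm_mul] at h
  have h2 : ‖(1 / 2 : ℂ)‖ = 1 / 2 := by norm_num
  rw [h2] at h
  have h3 : 2 ≤ ‖1 + u‖ := by linarith
  have h4 := Complex.sq_norm (1 + u)
  have h5 := Complex.sq_norm u
  rw [Complex.normSq_apply] at h4 h5
  simp only [Complex.add_re, Complex.one_re, Complex.add_im, Complex.one_im, zero_add] at h4
  have h6 : ‖u‖ ^ 2 ≤ 1 := by nlinarith [norm_nonneg u]
  have h7 : 4 ≤ ‖1 + u‖ ^ 2 := by nlinarith
  have h8 : 1 ≤ u.re := by nlinarith
  have h9 : u.im = 0 := by nlinarith [mul_self_nonneg u.im, mul_self_nonneg (u.re - 1)]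
  have h10 : u.re = 1 := by nlinarith
  exact Complex.ext (by simpa using h10) (by simpa using h9)

lemma char_pkX' (m : MX) (a : UnitAddCircle) : m (pkX a) = 1 / 2 * (1 + conj (ee a) * m zX) :=
  char_pkX (toA m) a

lemma norm_char_zX (m : MX) : ‖m zX‖ ≤ 1 := (char_le (toA m) zX).trans norm_zX_le

lemma norm_char_pkX (m : MX) (a : UnitAddCircle) : ‖m (pkX a)‖ ≤ 1 :=
  (char_le (toA m) (pkX a)).trans (norm_pk_le a)

lemma zX_of_peak {m : MX} {a : UnitAddCircle} (h : 1 ≤ ‖m (pkX a)‖) : m zX = ee a := by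
  rw [char_pkX'] at h
  have h1 : conj (ee a) * m zX = 1 := by
    apply one_of_peak _ h
    rw [norm_mul, RCLike.norm_conj, norm_ee, one_mul]
    exact norm_char_zX m
  calc m zX = (conj (ee a) * ee a) * m zX := by rw [conj_ee_mul, one_mul]
    _ = ee a * (conj (ee a) * m zX) := by ring
    _ = ee a := by rw [h1, mul_one]

section bdry

variable {B : Set MX} (hB : IsClosed B)
  (hbd : ∀ f : XX, ∃ m ∈ B, ∀ m' : MX, ‖m' f‖ ≤ ‖m f‖)

include hbd in
lemma evY_mem (y : YY) : ofA (evY y) ∈ B := by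
  obtain ⟨m, hm, hmax⟩ := hbd (pkX y)
  have h1 := hmax (ofA (evY y))
  have h2 : ofA (evY y) (pkX y) = 1 := char_pkX_one (m := evY y) (evY_zX y)
  rw [h2, norm_one] at h1
  have h3 := zX_of_peak h1
  have h4 : m = ofA (evY y) := by
    rw [← char_Y (m := toA m) h3, ofA_toA]
  rwa [← h4]

include hB hbd in
lemma evK_mem_pos {κ : KK} (hκ : 0 < (κ.1 : ℝ)) : ofA (evK κ) ∈ B := by
  by_contra hnot
  set N : Set KK := {κ' | ofA (evK κ') ∉ B} with hN
  have hNo : IsOpen N := (hB.preimage continuous_evK).isOpen_compl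
  have hPo : IsOpen {κ' : KK | 0 < (κ'.1 : ℝ)} := isOpen_lt continuous_const (by fun_prop)
  obtain ⟨G0, hG0, hG1, hG01⟩ := exists_continuous_zero_one_of_isClosed
    (s := (N ∩ {κ' : KK | 0 < (κ'.1 : ℝ)})ᶜ) (t := {κ})
    (hNo.inter hPo).isClosed_compl isClosed_singleton (by
      rw [Set.disjoint_singleton_right]
      exact fun h => h ⟨hnot, hκ⟩)
  let G : C(KK, ℂ) := ⟨fun κ' => (G0 κ' : ℂ), by fun_prop⟩
  have hGT : G ∈ TT := by
    apply mem_TT_of_zero
    intro w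
    have : G0 (0, w) = 0 := hG0 (fun h => by simpa using h.2)
    change ((G0 (0, w) : ℝ) : ℂ) = 0
    rw [this]; simp
  have hGκ : G κ = 1 := by
    have : G0 κ = 1 := hG1 rfl
    change ((G0 κ : ℝ) : ℂ) = 1
    rw [this]; simp
  obtain ⟨f, hf⟩ := exists_lift hGT
  set A : ℕ → Set MX := fun n => B ∩ {m | 1 ≤ ‖m f‖ * ‖m (pkX 0)‖ ^ n} with hA
  have hcl : ∀ n, IsClosed (A n) := fun n => hB.inter
    (isClosed_le continuous_const ((cont_eval f).norm.mul ((cont_eval (pkX 0)).norm.pow n)))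
  have hne : ∀ n, (A n).Nonempty := by
    intro n
    obtain ⟨m, hm, hmax⟩ := hbd (f * pkX 0 ^ n)
    refine ⟨m, hm, ?_⟩
    have h1 := hmax (ofA (evK κ))
    have h2 : ofA (evK κ) (f * pkX 0 ^ n) = 1 := by
      rw [map_mul, map_pow]
      have h3 : ofA (evK κ) (pkX 0) = 1 := char_pkX_one (m := evK κ) (by
        rw [ee_zero]; exact evK_zX κ)
      have h4 : ofA (evK κ) f = 1 := by
        change phi f κ = 1
        rw [hf, hGκ]
      rw [h3, h4]; simp
    rw [h2, norm_one, map_mul, map_pow, norm_mul, norm_pow] at h1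
    exact h1
  have hdec : ∀ n, A (n + 1) ⊆ A n := by
    rintro n m ⟨hm, hm'⟩
    refine ⟨hm, ?_⟩
    have h1 : ‖m (pkX 0)‖ ^ (n + 1) ≤ ‖m (pkX 0)‖ ^ n :=
      pow_le_pow_of_le_one (norm_nonneg _) (norm_char_pkX m 0) (Nat.le_succ n)
    have h2 : 1 ≤ ‖m f‖ * ‖m (pkX 0)‖ ^ (n + 1) := hm'
    calc 1 ≤ ‖m f‖ * ‖m (pkX 0)‖ ^ (n + 1) := h2
      _ ≤ ‖m f‖ * ‖m (pkX 0)‖ ^ n := by gcongr
  obtain ⟨m, hm⟩ := IsCompact.nonempty_iInter_of_sequence_nonempty_isCompact_isClosed A hdec hne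
    (hcl 0).isCompact hcl
  rw [Set.mem_iInter] at hm
  have hmB : m ∈ B := (hm 0).1
  have h1 : 1 ≤ ‖m f‖ := by
    have := (hm 0).2
    simpa using this
  have h2 : 1 ≤ ‖m (pkX 0)‖ := by
    by_contra hlt
    push Not at hlt
    have h3 : Tendsto (fun n : ℕ => ‖m f‖ * ‖m (pkX 0)‖ ^ n) atTop (𝓝 (‖m f‖ * 0)) :=
      (tendsto_pow_atTop_nhds_zero_of_lt_one (norm_nonneg _) hlt).const_mul _
    rw [mul_zero] at h3
    obtain ⟨n, hn⟩ := (h3.eventually_lt_const one_pos).exists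
    have : 1 ≤ ‖m f‖ * ‖m (pkX 0)‖ ^ n := (hm n).2
    linarith
  have h3 := zX_of_peak h2
  rw [ee_zero] at h3
  obtain ⟨κ', hκ'⟩ := char_K (m := toA m) h3
  have h4 : m = ofA (evK κ') := by rw [← hκ', ofA_toA]
  have h5 : m f = G κ' := by
    rw [h4]
    change phi f κ' = G κ'
    rw [hf]
  have h6 : κ' ∈ N := by
    by_contra h7
    have h8 : G0 κ' = 0 := hG0 (fun h => h7 h.1)
    have h9 : G κ' = 0 := by
      change ((G0 κ' : ℝ) : ℂ) = 0
      rw [h8]; simp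
    rw [h5, h9, norm_zero] at h1
    linarith
  exact h6 (by rw [← h4]; exact hmB)

include hB hbd in
lemma evK_mem (κ : KK) : ofA (evK κ) ∈ B := by
  by_cases hκ : 0 < (κ.1 : ℝ)
  · exact evK_mem_pos hB hbd hκ
  · have h0 : κ.1 = 0 := by
      apply Subtype.ext
      have := κ.1.2.1
      push Not at hκ
      exact le_antisymm hκ this
    let u : ℕ → KK := fun n => (⟨1 / ((n : ℝ) + 1), by
      constructor
      · positivity
      · rw [div_le_one (by positivity)]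
        have : (0 : ℝ) ≤ n := Nat.cast_nonneg n
        linarith⟩, κ.2)
    have hu : Tendsto u atTop (𝓝 κ) := by
      have h1 : Tendsto (fun n => (u n).1) atTop (𝓝 κ.1) := by
        rw [h0, tendsto_subtype_rng]
        exact tendsto_one_div_add_atTop_nhds_zero_nat
      have h2 : Tendsto (fun n => (u n).2) atTop (𝓝 κ.2) := tendsto_const_nhds
      exact h1.prodMk_nhds h2
    have hpre : IsClosed {κ' : KK | ofA (evK κ') ∈ B} := hB.preimage continuous_evK
    apply hpre.mem_of_tendsto hu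
    apply Eventually.of_forall
    intro n
    apply evK_mem_pos hB hbd
    change 0 < 1 / ((n : ℝ) + 1)
    positivity

include hB hbd in
/-- `EE` is contained in every closed boundary -/
theorem EE_subset : EE ⊆ B := by
  intro m hm
  rcases char_cases (zX_of_mem_EE hm) with ⟨y, rfl⟩ | ⟨κ, rfl⟩
  · exact evY_mem hbd y
  · exact evK_mem hB hbd κ

end bdry

end Pool.Agent.Helper914.Corona
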