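import Pool.Agent.Helper914.Corona.Lift

set_option autoImplicit false
open Filter Topology Complex MeasureTheory AddCircle
open scoped Real ComplexConjugate ENNReal BoundedContinuousFunction NNReal

namespace Pool.Agent.Helper914.Corona
open Pool.Agent.Helper914.Corona.Toep

/-- the image of the fibre homomorphism -/
noncomputable def RR : Subalgebra ℂ C(KK, ℂ) := phi.range

lemma isClosed_RR : IsClosed (RR : Set C(KK, ℂ)) := isClosed_range

instance : CompleteSpace RR := isClosed_RR.completeSpace_coe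

lemma mem_RR_of {f : Li} (hf : f ∈ XX) {F : C(KK, ℂ)} (h : Rep f F) : F ∈ RR :=
  ⟨⟨f, hf⟩, phi_eq h⟩

lemma Ft_RR : Ft ∈ RR := mem_RR_of ft_mem ft_Rep
lemma Fw_RR : Fw ∈ RR := mem_RR_of fw_mem fw_Rep

lemma Ft_Fwb_RR : Ft * star Fw ∈ RR := by
  apply mem_RR_of (f := ft * fwb) _ (ft_Rep.mul fwb_Rep)
  refine ⟨mul_mem_Hi ft_Hi fwb_Hi, _, ?_, ft_Rep.mul fwb_Rep⟩
  apply mem_TT_of_zero
  intro w
  rw [ContinuousMap.mul_apply, Ft_zero, zero_mul]

lemma norm_one_sub_Ft : ‖(1 : C(KK, ℂ)) - Ft‖ ≤ 1 := by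
  rw [ContinuousMap.norm_le _ zero_le_one]
  intro κ
  have h : ((1 : C(KK, ℂ)) - Ft) κ = ((1 - (κ.1 : ℝ) : ℝ) : ℂ) := by
    rw [ContinuousMap.sub_apply, Ft_apply]; push_cast; rfl
  rw [h, Complex.norm_real, Real.norm_eq_abs, abs_le]
  have := κ.1.2
  constructor <;> linarith [this.1, this.2]

/-- `Ft + δ` is invertible in `RR` -/
lemma exists_inv {δ : ℝ} (hδ : 0 < δ) : ∃ J ∈ RR, ∀ κ : KK, (((κ.1 : ℝ) : ℂ) + δ) * J κ = 1 := by
  have hc : (1 + δ : ℝ) ≠ 0 := by positivity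
  let x : RR := ⟨((1 / (1 + δ) : ℝ) : ℂ) • (1 - Ft), RR.smul_mem (RR.sub_mem RR.one_mem Ft_RR) _⟩
  have hx : ‖x‖ < 1 := by
    change ‖((1 / (1 + δ) : ℝ) : ℂ) • ((1 : C(KK, ℂ)) - Ft)‖ < 1
    rw [norm_smul, Complex.norm_real, Real.norm_eq_abs, abs_of_pos (by positivity)]
    calc 1 / (1 + δ) * ‖(1 : C(KK, ℂ)) - Ft‖ ≤ 1 / (1 + δ) * 1 := by
          gcongr; exact norm_one_sub_Ft
      _ < 1 := by
          rw [mul_one, div_lt_one (by positivity)]; linarith
  let u := Units.oneSub x hx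
  have hu : (1 - x) * ((u⁻¹ : (↥RR)ˣ) : RR) = 1 := by
    have := u.mul_inv
    rwa [Units.val_oneSub] at this
  refine ⟨((1 / (1 + δ) : ℝ) : ℂ) • (((u⁻¹ : (↥RR)ˣ) : RR) : C(KK, ℂ)),
    RR.smul_mem (((u⁻¹ : (↥RR)ˣ) : RR)).2 _, fun κ => ?_⟩
  have h1 : ((1 : C(KK, ℂ)) - ((1 / (1 + δ) : ℝ) : ℂ) • (1 - Ft)) *
      (((u⁻¹ : (↥RR)ˣ) : RR) : C(KK, ℂ)) = 1 := congrArg Subtype.val hu
  have h2 := DFunLike.congr_fun h1 κ
  simp only [ContinuousMap.mul_apply, ContinuousMap.sub_apply, ContinuousMap.one_apply,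
    ContinuousMap.smul_apply, smul_eq_mul, Ft_apply] at h2 ⊢
  have hc' : ((1 + δ : ℝ) : ℂ) ≠ 0 := by exact_mod_cast hc
  have h3 : (1 : ℂ) - ((1 / (1 + δ) : ℝ) : ℂ) * (1 - ((κ.1 : ℝ) : ℂ)) =
      ((1 / (1 + δ) : ℝ) : ℂ) * (((κ.1 : ℝ) : ℂ) + δ) := by
    push_cast
    have : (1 : ℂ) + δ ≠ 0 := by exact_mod_cast hc
    field_simp
    ring
  rw [h3] at h2
  linear_combination h2

lemma norm_inv_le {δ : ℝ} (hδ : 0 < δ) {J : C(KK, ℂ)}
    (h : ∀ κ : KK, (((κ.1 : ℝ) : ℂ) + δ) * J κ = 1) (κ : KK) : ‖J κ‖ = ((κ.1 : ℝ) + δ)⁻¹ := by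
  have h0 : 0 < (κ.1 : ℝ) + δ := by have := κ.1.2.1; linarith
  have h1 := congrArg norm (h κ)
  rw [norm_mul, norm_one] at h1
  have h2 : ‖((κ.1 : ℝ) : ℂ) + δ‖ = (κ.1 : ℝ) + δ := by
    have : ((κ.1 : ℝ) : ℂ) + δ = (((κ.1 : ℝ) + δ : ℝ) : ℂ) := by push_cast; rfl
    rw [this, Complex.norm_real, Real.norm_eq_abs, abs_of_pos h0]
  rw [h2] at h1
  rw [eq_inv_of_mul_eq_one_right h1]

lemma sub_eq {δ : ℝ} {J : C(KK, ℂ)} (h : ∀ κ : KK, (((κ.1 : ℝ) : ℂ) + δ) * J κ = 1) (κ : KK) :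
    1 - ((κ.1 : ℝ) : ℂ) * J κ = δ * J κ := by linear_combination -(h κ)

/-- everything divisible by `Ft` is in the range -/
lemma Ft_mul_RR (H : C(KK, ℂ)) : Ft * H ∈ RR := by
  let A : Subalgebra ℂ C(KK, ℂ) :=
    { carrier := {H | Ft * H ∈ RR}
      mul_mem' := by
        intro a b ha hb
        change Ft * (a * b) ∈ RR
        have hcl : Ft * (a * b) ∈ closure (RR : Set C(KK, ℂ)) := by
          rw [Metric.mem_closure_iff]
          intro ε hε
          set δ := ε / (2 * (‖a * b‖ + 1)) with hδ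
          have hδ0 : 0 < δ := by positivity
          obtain ⟨J, hJ, hJ1⟩ := exists_inv hδ0
          refine ⟨(Ft * a) * (Ft * b) * J, RR.mul_mem (RR.mul_mem ha hb) hJ, ?_⟩
          rw [dist_eq_norm]
          have h1 : ‖Ft * (a * b) - (Ft * a) * (Ft * b) * J‖ ≤ δ * ‖a * b‖ := by
            rw [ContinuousMap.norm_le _ (by positivity)]
            intro κ
            have e : (Ft * (a * b) - (Ft * a) * (Ft * b) * J) κ =
                (((κ.1 : ℝ) : ℂ) * J κ) * δ * (a * b) κ := by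
              simp only [ContinuousMap.sub_apply, ContinuousMap.mul_apply, Ft_apply]
              linear_combination (((κ.1 : ℝ) : ℂ) * a κ * b κ) * (sub_eq hJ1 κ)
            rw [e, norm_mul, norm_mul, norm_mul, norm_inv_le hδ0 hJ1, Complex.norm_real,
              Complex.norm_real, Real.norm_eq_abs, Real.norm_eq_abs, abs_of_pos hδ0,
              abs_of_nonneg κ.1.2.1]
            have h0 : 0 < (κ.1 : ℝ) + δ := by have := κ.1.2.1; linarith
            have h2 : (κ.1 : ℝ) * ((κ.1 : ℝ) + δ)⁻¹ ≤ 1 := by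
              rw [← div_eq_mul_inv, div_le_one h0]; linarith
            have h3 := (a * b).norm_coe_le_norm κ
            calc (κ.1 : ℝ) * ((κ.1 : ℝ) + δ)⁻¹ * δ * ‖(a * b) κ‖ ≤ 1 * δ * ‖a * b‖ := by gcongr
              _ = δ * ‖a * b‖ := by ring
          refine h1.trans_lt ?_
          rw [hδ]
          have : ε / (2 * (‖a * b‖ + 1)) * ‖a * b‖ ≤ ε / 2 := by
            rw [div_mul_eq_mul_div, div_le_div_iff₀ (by positivity) (by norm_num)]
            nlinarith [norm_nonneg (a * b)]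
          linarith
        rwa [isClosed_RR.closure_eq] at hcl
      add_mem' := by
        intro a b ha hb
        change Ft * (a + b) ∈ RR
        rw [mul_add]; exact RR.add_mem ha hb
      algebraMap_mem' := fun c => by
        change Ft * algebraMap ℂ C(KK, ℂ) c ∈ RR
        exact RR.mul_mem Ft_RR (RR.algebraMap_mem c) }
  have hA : A = ⊤ := by
    apply sw
    · exact isClosed_RR.preimage (continuous_const.mul continuous_id)
    · exact RR.mul_mem Ft_RR Ft_RR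
    · exact RR.mul_mem Ft_RR Fw_RR
    · exact Ft_Fwb_RR
  have : H ∈ A := by rw [hA]; trivial
  exact this

/-- functions vanishing at the bottom are approximated by multiples of `Ft` -/
lemma approx_of_zero {G : C(KK, ℂ)} (hG : ∀ w, G (0, w) = 0) {ε : ℝ} (hε : 0 < ε) :
    ∃ H : C(KK, ℂ), ‖G - Ft * H‖ ≤ ε := by
  have hcomp : IsCompact {κ : KK | ε ≤ ‖G κ‖} :=
    (isClosed_le continuous_const G.continuous.norm).isCompact
  obtain ⟨η, hη, hη'⟩ : ∃ η : ℝ, 0 < η ∧ ∀ κ : KK, ε ≤ ‖G κ‖ → η ≤ (κ.1 : ℝ) := by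
    rcases Set.eq_empty_or_nonempty {κ : KK | ε ≤ ‖G κ‖} with h | h
    · refine ⟨1, one_pos, fun κ hκ => ?_⟩
      exfalso
      have : κ ∈ {κ : KK | ε ≤ ‖G κ‖} := hκ
      rw [h] at this; exact this
    · obtain ⟨κ0, h0, hmin⟩ := hcomp.exists_isMinOn h
        (f := fun κ : KK => (κ.1 : ℝ)) (by fun_prop)
      refine ⟨(κ0.1 : ℝ), ?_, fun κ hκ => hmin hκ⟩
      rcases κ0.1.2.1.lt_or_eq with h1 | h1
      · exact h1
      · exfalso
        have h2 : κ0 = (0, κ0.2) := Prod.ext (Subtype.ext h1.symm) rfl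
        have h3 : ε ≤ ‖G κ0‖ := h0
        rw [h2, hG, norm_zero] at h3
        linarith
  set δ := ε * η / (‖G‖ + 1) with hδ
  have hδ0 : 0 < δ := by positivity
  obtain ⟨J, -, hJ1⟩ := exists_inv hδ0
  refine ⟨G * J, ?_⟩
  rw [ContinuousMap.norm_le _ hε.le]
  intro κ
  have e : (G - Ft * (G * J)) κ = G κ * (δ * J κ) := by
    simp only [ContinuousMap.sub_apply, ContinuousMap.mul_apply, Ft_apply]
    linear_combination (G κ) * (sub_eq hJ1 κ)
  have h0 : 0 < (κ.1 : ℝ) + δ := by have := κ.1.2.1; linarith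
  rw [e, norm_mul, norm_mul, norm_inv_le hδ0 hJ1, Complex.norm_real, Real.norm_eq_abs,
    abs_of_pos hδ0]
  by_cases h : ε ≤ ‖G κ‖
  · have h1 := hη' κ h
    have h2 := G.norm_coe_le_norm κ
    have h3 : δ * ((κ.1 : ℝ) + δ)⁻¹ ≤ δ / η := by
      rw [← div_eq_mul_inv]
      gcongr
      linarith
    calc ‖G κ‖ * (δ * ((κ.1 : ℝ) + δ)⁻¹) ≤ ‖G‖ * (δ / η) := by gcongr
      _ = ε * (‖G‖ / (‖G‖ + 1)) := by rw [hδ]; field_simp
      _ ≤ ε * 1 := by
          gcongr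
          rw [div_le_one (by positivity)]; linarith
      _ = ε := mul_one _
  · push Not at h
    have h3 : δ * ((κ.1 : ℝ) + δ)⁻¹ ≤ 1 := by
      rw [← div_eq_mul_inv, div_le_one h0]
      have := κ.1.2.1; linarith
    calc ‖G κ‖ * (δ * ((κ.1 : ℝ) + δ)⁻¹) ≤ ε * 1 := by gcongr
      _ = ε := mul_one _

lemma RR_of_zero {G : C(KK, ℂ)} (hG : ∀ w, G (0, w) = 0) : G ∈ RR := by
  have : G ∈ closure (RR : Set C(KK, ℂ)) := by
    rw [Metric.mem_closure_iff]
    intro ε hε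
    obtain ⟨H, hH⟩ := approx_of_zero hG (half_pos hε)
    exact ⟨Ft * H, Ft_mul_RR H, by rw [dist_eq_norm]; linarith⟩
  rwa [isClosed_RR.closure_eq] at this

/-- dilations of the slice -/
noncomputable def dil (F : C(KK, ℂ)) (r : ℝ) : C(KK, ℂ) :=
  ⟨fun κ => slice F (r * κ.2), (continuous_slice F).comp (by fun_prop)⟩

lemma dil_tendsto (F : C(KK, ℂ)) : Tendsto (dil F) (𝓝 1) (𝓝 (dil F 1)) := by
  let f : C(ℝ × KK, ℂ) := ⟨fun p => slice F (p.1 * p.2.2), (continuous_slice F).comp (by fun_prop)⟩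
  have h : dil F = f.curry := by
    ext r κ; rfl
  rw [h]
  exact f.curry.continuous.tendsto 1

lemma dil_mem {R0 : Subalgebra ℂ C(KK, ℂ)} (hcl : IsClosed (R0 : Set C(KK, ℂ))) (hw : Fw ∈ R0)
    {F : C(KK, ℂ)} (hF : F ∈ TT) {r : ℝ} (hr0 : 0 < r) (hr1 : r < 1) : dil F r ∈ R0 := by
  set R : ℝ := (1 + 1 / r) / 2 with hR
  have h1r : 1 < 1 / r := by rw [lt_div_iff₀ hr0]; linarith
  have hR1 : 1 < R := by rw [hR]; linarith
  have hR0 : 0 < R := by linarith
  have hrR : r * R < 1 := by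
    rw [hR]
    have : r * ((1 + 1 / r) / 2) = (r + 1) / 2 := by field_simp
    rw [this]; linarith
  set R' : ℝ := (1 + R) / 2 with hR'
  have hR'1 : 1 < R' := by rw [hR']; linarith
  have hR'R : R' < R := by rw [hR']; linarith
  have hd : DifferentiableOn ℂ (fun w : ℂ => slice F (r * w)) (Metric.closedBall 0 R) := by
    have h1 : DifferentiableOn ℂ (slice F) (Metric.ball 0 1) := hF
    apply h1.comp (by fun_prop)
    intro w hw
    rw [mem_closedBall_zero_iff] at hw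
    rw [mem_ball_zero_iff, norm_mul, Complex.norm_real, Real.norm_eq_abs, abs_of_pos hr0]
    calc r * ‖w‖ ≤ r * R := by gcongr
      _ < 1 := hrR
  have hd' : DifferentiableOn ℂ (fun w : ℂ => slice F (r * w))
      (Metric.closedBall 0 (R.toNNReal : ℝ)) := by
    rwa [Real.coe_toNNReal _ hR0.le]
  have hps := DifferentiableOn.hasFPowerSeriesOnBall (R := R.toNNReal) (c := 0) hd'
    (Real.toNNReal_pos.2 hR0)
  have hun := hps.tendstoUniformlyOn (r' := R'.toNNReal)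
    (ENNReal.coe_lt_coe.2 ((Real.toNNReal_lt_toNNReal_iff hR0).2 hR'R))
  rw [Real.coe_toNNReal _ (by linarith : (0 : ℝ) ≤ R')] at hun
  set p := cauchyPowerSeries (fun w : ℂ => slice F (r * w)) 0 (R.toNNReal : ℝ≥0) with hp
  let P : ℕ → C(KK, ℂ) := fun n => ∑ k ∈ Finset.range n, p.coeff k • Fw ^ k
  have hP : ∀ n, P n ∈ R0 := fun n =>
    R0.sum_mem fun k _ => R0.smul_mem (R0.pow_mem hw k) _
  have hPa : ∀ n κ, P n κ = p.partialSum n (κ.2 : ℂ) := by
    intro n κ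
    simp only [P]
    rw [FormalMultilinearSeries.partialSum, ContinuousMap.sum_apply]
    apply Finset.sum_congr rfl
    intro k _
    rw [FormalMultilinearSeries.apply_eq_pow_smul_coeff]
    simp only [ContinuousMap.smul_apply, ContinuousMap.pow_apply, Fw_apply, smul_eq_mul]
    ring
  have hlim : Tendsto P atTop (𝓝 (dil F r)) := by
    rw [ContinuousMap.tendsto_iff_tendstoUniformly, Metric.tendstoUniformly_iff]
    intro ε hε
    rw [Metric.tendstoUniformlyOn_iff] at hun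
    filter_upwards [hun ε hε] with n hn κ
    have h1 := hn (κ.2 : ℂ) (by
      rw [mem_ball_zero_iff]
      exact (mem_closedBall_zero_iff.1 κ.2.2).trans_lt hR'1)
    rw [hPa]
    rw [zero_add] at h1
    exact h1
  exact hcl.mem_of_tendsto hlim (Eventually.of_forall hP)

/-- a closed algebra containing `w` and all functions vanishing at the bottom contains `TT` -/
lemma TT_le {R0 : Subalgebra ℂ C(KK, ℂ)} (hcl : IsClosed (R0 : Set C(KK, ℂ))) (hw : Fw ∈ R0)
    (h0 : ∀ G : C(KK, ℂ), (∀ w, G (0, w) = 0) → G ∈ R0) {F : C(KK, ℂ)} (hF : F ∈ TT) :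
    F ∈ R0 := by
  have h1 : dil F 1 ∈ R0 := by
    have h2 : Tendsto (dil F) (𝓝[<] 1) (𝓝 (dil F 1)) := (dil_tendsto F).mono_left nhdsWithin_le_nhds
    apply hcl.mem_of_tendsto h2
    have h3 : ∀ᶠ r : ℝ in 𝓝[<] 1, 0 < r := mem_nhdsWithin_of_mem_nhds (Ioi_mem_nhds one_pos)
    filter_upwards [h3, self_mem_nhdsWithin] with r hr0 hr1
    exact dil_mem hcl hw hF hr0 hr1
  have h2 : F - dil F 1 ∈ R0 := by
    apply h0
    intro w
    have : dil F 1 (0, w) = slice F w := by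
      change slice F (((1 : ℝ) : ℂ) * (w : ℂ)) = slice F w
      rw [Complex.ofReal_one, one_mul]
    rw [ContinuousMap.sub_apply, this, slice_coe, sub_self]
  have : F = (F - dil F 1) + dil F 1 := by ring
  rw [this]
  exact R0.add_mem h2 h1

lemma TT_le_RR {F : C(KK, ℂ)} (hF : F ∈ TT) : F ∈ RR :=
  TT_le isClosed_RR Fw_RR (fun _ hG => RR_of_zero hG) hF

/-- every function of the fibre algebra lifts -/
theorem exists_lift {F : C(KK, ℂ)} (hF : F ∈ TT) : ∃ f : XX, phi f = F := TT_le_RR hF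

end Pool.Agent.Helper914.Corona
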